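import Pool.Agent.Lib.MP_ae5b4e_an_N4.SRic

/-!
# MP_ae5b4e_an, block K1: solutions with given logarithmic derivative
-/

set_option autoImplicit false

noncomputable section

namespace Pool.Agent.MP_ae5b4e_an_K1

open Complex Set Filter Topology Metric
open Pool.Agent.MP_ae5b4e_an_NB2 (Sys)

/-- initial values can be prescribed -/
theorem exists_ini {Y : Sys} {S : Set ℂ} (hY : Y.On S) {p : ℂ} (hp : p ∈ S) (u u' : ℂ) :
    ∃ a b : ℂ, a * Y.y1 p + b * Y.y2 p = u ∧ a * Y.y1' p + b * Y.y2' p = u' := by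
  have h1 := hY.wr p hp
  refine ⟨u * Y.y2' p - u' * Y.y2 p, u' * Y.y1 p - u * Y.y1' p, ?_, ?_⟩
  · linear_combination u * h1
  · linear_combination u' * h1

/-- the derivative of a solution -/
theorem hasDerivAt_comb {Y : Sys} {S : Set ℂ} (hY : Y.On S) (a b : ℂ) {l : ℂ} (hl : l ∈ S) :
    HasDerivAt (fun l => a * Y.y1 l + b * Y.y2 l) (a * Y.y1' l + b * Y.y2' l) l :=
  ((hY.d1 l hl).const_mul a).add ((hY.d2 l hl).const_mul b)

theorem hasDerivAt_comb' {Y : Sys} {S : Set ℂ} (hY : Y.On S) (a b : ℂ) {l : ℂ} (hl : l ∈ S) :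
    HasDerivAt (fun l => a * Y.y1' l + b * Y.y2' l)
      (-Y.Q l * (a * Y.y1 l + b * Y.y2 l)) l := by
  have h := ((hY.d1' l hl).const_mul a).add ((hY.d2' l hl).const_mul b)
  refine h.congr_deriv ?_
  ring

/-- THE SOLUTION of the system whose logarithmic derivative is near `m`, on `ball lb s`; the
potential is near `- m²` on `ball lb (5 s)`. -/
theorem sol1 {Y : Sys} {lb m : ℂ} {s : ℝ} (hs : 0 < s) (hm : m ≠ 0) (hY : Y.On (ball lb (5 * s)))
    (hQ : ∀ l ∈ ball lb (5 * s), ‖Y.Q l + m ^ 2‖ ≤ ‖m‖ ^ 2 / 40) :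
    ∃ a b : ℂ, ∀ l ∈ ball lb s, ‖a * Y.y1' l + b * Y.y2' l - m * (a * Y.y1 l + b * Y.y2 l)‖ ≤
      ‖m‖ / 10 * ‖a * Y.y1 l + b * Y.y2 l‖ ∧ a * Y.y1 l + b * Y.y2 l ≠ 0 := by
  have hm' : 0 < ‖m‖ := norm_pos_iff.2 hm
  obtain ⟨p0, hp0⟩ : ∃ p0 : ℂ, p0 = lb - 4 * s * ((starRingEnd ℂ) m / ‖m‖) := ⟨_, rfl⟩
  have hmc : m * ((starRingEnd ℂ) m / ‖m‖) = ‖m‖ := by
    have h1 : m * (starRingEnd ℂ) m = (‖m‖ : ℂ) ^ 2 := by
      rw [Complex.mul_conj, Complex.normSq_eq_norm_sq]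
      push_cast
      rfl
    have h2 : (‖m‖ : ℂ) ≠ 0 := by exact_mod_cast hm'.ne'
    rw [← mul_div_assoc, h1]
    field_simp
  have hn1 : ‖(starRingEnd ℂ) m / (‖m‖ : ℂ)‖ = 1 := by
    rw [norm_div, Complex.norm_conj, Complex.norm_real, norm_norm, div_self hm'.ne']
  have hd0 : ‖lb - p0‖ = 4 * s := by
    rw [hp0, sub_sub_cancel, norm_mul, hn1, mul_one, norm_mul, Complex.norm_real,
      Real.norm_of_nonneg hs.le]
    norm_num
  have hp0m : p0 ∈ ball lb (5 * s) := by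
    rw [mem_ball, dist_comm, dist_eq_norm, hd0]
    linarith
  obtain ⟨a, b, h1, h2⟩ := exists_ini hY hp0m 1 m
  refine ⟨a, b, fun l hl => ?_⟩
  have hsub : ball lb s ⊆ ball lb (5 * s) := ball_subset_ball (by linarith)
  refine Pool.Agent.MP_ae5b4e_an_N4.ric (convex_ball lb (5 * s)) (V := fun l => -Y.Q l)
    (w := fun l => a * Y.y1 l + b * Y.y2 l) (w1 := fun l => a * Y.y1' l + b * Y.y2' l)
    (m := m) (e0 := ‖m‖ ^ 2 / 40) (by positivity : 0 < ‖m‖ / 10)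
    (fun σ hσ => hasDerivAt_comb hY a b hσ) (fun σ hσ => hasDerivAt_comb' hY a b hσ)
    (fun σ hσ => ?_) hp0m (hsub hl) ?_ ?_ ?_
  · have h3 := hQ σ hσ
    have h4 : -Y.Q σ - m ^ 2 = -(Y.Q σ + m ^ 2) := by ring
    rw [h4, norm_neg]
    exact h3
  · simp only [h1, h2, mul_one]
  · simp only [h1]
    exact one_ne_zero
  · have hls : ‖l - lb‖ < s := by
      rw [mem_ball, dist_eq_norm] at hl
      exact hl
    have h3 : m * (l - p0) = m * (l - lb) + ((4 * s * ‖m‖ : ℝ) : ℂ) := by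
      have h4 : l - p0 = (l - lb) + 4 * s * ((starRingEnd ℂ) m / ‖m‖) := by
        rw [hp0]
        ring
      rw [h4, mul_add]
      push_cast
      linear_combination (4 * (s : ℂ)) * hmc
    have h5 : (m * (l - p0)).re ≥ 3 * s * ‖m‖ := by
      rw [h3, Complex.add_re, Complex.ofReal_re]
      have h6 := Complex.abs_re_le_norm (m * (l - lb))
      rw [norm_mul] at h6
      have h7 := neg_abs_le (m * (l - lb)).re
      have h8 : ‖m‖ * ‖l - lb‖ ≤ ‖m‖ * s := mul_le_mul_of_nonneg_left hls.le hm'.le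
      linarith
    have h6 : ‖l - p0‖ ≤ 5 * s := by
      have h7 : l - p0 = (l - lb) + (lb - p0) := by ring
      rw [h7]
      refine (norm_add_le _ _).trans ?_
      rw [hd0]
      linarith
    calc (‖m‖ ^ 2 / 40 + (‖m‖ / 10) ^ 2) * ‖l - p0‖
        ≤ (‖m‖ ^ 2 / 40 + (‖m‖ / 10) ^ 2) * (5 * s) :=
          mul_le_mul_of_nonneg_left h6 (by positivity)
      _ ≤ 2 * (‖m‖ / 10) * (3 * s * ‖m‖) := by nlinarith [mul_pos (mul_pos hm' hm') hs]
      _ ≤ 2 * (‖m‖ / 10) * (m * (l - p0)).re := mul_le_mul_of_nonneg_left h5 (by positivity)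

/-- the logarithmic derivative of the solution satisfies the Riccati equation -/
theorem ric1 {Y : Sys} {S : Set ℂ} (hY : Y.On S) {a b l : ℂ} (hl : l ∈ S)
    (h0 : a * Y.y1 l + b * Y.y2 l ≠ 0) :
    HasDerivAt (fun l => (a * Y.y1' l + b * Y.y2' l) / (a * Y.y1 l + b * Y.y2 l))
      (-Y.Q l - ((a * Y.y1' l + b * Y.y2' l) / (a * Y.y1 l + b * Y.y2 l)) ^ 2) l := by
  have h1 := (hasDerivAt_comb' hY a b hl).div (hasDerivAt_comb hY a b hl) h0
  refine h1.congr_deriv ?_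
  field_simp

/-- REFINED ESTIMATE: a solution of `f' = N (- q - f²)` near `m₀` is near the root `i κ`.
`m₀ = ± i κ₀`. -/
theorem root1 {f Q k : ℂ → ℂ} {lb m₀ : ℂ} {s N δ : ℝ} (hs : 0 < s) (hN : 0 < N) (hm : m₀ ≠ 0)
    (hf : ∀ l ∈ ball lb s, HasDerivAt f (N * (-(Q l) - f l ^ 2)) l)
    (hf1 : ∀ l ∈ ball lb s, ‖f l - m₀‖ ≤ ‖m₀‖ / 10)
    (hk : ∀ l ∈ ball lb s, ‖k l - m₀‖ ≤ ‖m₀‖ / 10)
    (hQ : ∀ l ∈ ball lb s, ‖Q l + k l ^ 2‖ ≤ δ) :
    ∀ l ∈ ball lb (s / 2), ‖f l - k l‖ ≤ δ / ‖m₀‖ + 4 / (s * N) := by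
  intro l hl
  have hm' : 0 < ‖m₀‖ := norm_pos_iff.2 hm
  have hls : l ∈ ball lb s := ball_subset_ball (by linarith) hl
  have hcb : closedBall l (s / 2) ⊆ closedBall lb s := by
    intro z hz
    rw [mem_closedBall] at hz ⊢
    rw [mem_ball] at hl
    linarith [dist_triangle z l lb]
  have hcb' : ∀ z ∈ closedBall l (s / 2), z ∈ ball lb s := by
    intro z hz
    rw [mem_closedBall] at hz
    rw [mem_ball] at hl ⊢
    linarith [dist_triangle z l lb]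
  have hfd : DifferentiableOn ℂ (fun z => f z - m₀) (ball lb s) := fun z hz =>
    ((hf z hz).differentiableAt.sub_const m₀).differentiableWithinAt
  have h1 : ‖deriv (fun z => f z - m₀) l‖ ≤ ‖m₀‖ / 10 / (s / 2) := by
    refine Complex.norm_deriv_le_of_forall_mem_sphere_norm_le (by positivity)
      (hfd.diffContOnCl_ball hcb') fun z hz => hf1 z (hcb' z (sphere_subset_closedBall hz))
  have h2 : deriv (fun z => f z - m₀) l = N * (-(Q l) - f l ^ 2) :=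
    ((hf l hls).sub_const m₀).deriv
  rw [h2, norm_mul, Complex.norm_real, Real.norm_of_nonneg hN.le] at h1
  have h3 : ‖-(Q l) - f l ^ 2‖ ≤ ‖m₀‖ / (s * N) := by
    rw [le_div_iff₀ (by positivity)]
    have h4 : ‖m₀‖ / 10 / (s / 2) = ‖m₀‖ / (5 * s) := by
      field_simp
      norm_num
    rw [h4, le_div_iff₀ (by positivity)] at h1
    nlinarith [norm_nonneg (-(Q l) - f l ^ 2), mul_pos hs hN]
  have h5 : (f l - k l) * (f l + k l) = -(Q l + k l ^ 2) - (-(Q l) - f l ^ 2) := by ring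
  have h5b : (f l - k l) * (f l + k l) = -((-(Q l) - f l ^ 2)) - (Q l + k l ^ 2) := by ring
  have h6 : ‖f l - k l‖ * ‖f l + k l‖ ≤ ‖m₀‖ / (s * N) + δ := by
    rw [← norm_mul, h5b]
    refine (norm_sub_le _ _).trans ?_
    rw [norm_neg]
    exact add_le_add h3 (hQ l hls)
  have h7 : ‖m₀‖ ≤ ‖f l + k l‖ := by
    have h8 : 2 * m₀ = (f l + k l) - ((f l - m₀) + (k l - m₀)) := by ring
    have h9 : ‖2 * m₀‖ ≤ ‖f l + k l‖ + (‖f l - m₀‖ + ‖k l - m₀‖) := by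
      rw [h8]
      exact (norm_sub_le _ _).trans (by gcongr; exact norm_add_le _ _)
    rw [norm_mul, Complex.norm_ofNat] at h9
    have h10 := hf1 l hls
    have h11 := hk l hls
    linarith
  have h8 : ‖f l - k l‖ * ‖m₀‖ ≤ ‖m₀‖ / (s * N) + δ :=
    (mul_le_mul_of_nonneg_left h7 (norm_nonneg _)).trans h6
  have h9 : ‖f l - k l‖ ≤ (‖m₀‖ / (s * N) + δ) / ‖m₀‖ := by
    rw [le_div_iff₀ hm']
    exact h8
  refine h9.trans ?_
  have h10 : (‖m₀‖ / (s * N) + δ) / ‖m₀‖ = δ / ‖m₀‖ + 1 / (s * N) := by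
    field_simp
    ring
  rw [h10]
  have h11 : 1 / (s * N) ≤ 4 / (s * N) := by gcongr; norm_num
  linarith

end Pool.Agent.MP_ae5b4e_an_K1
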