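import Pool.Agent.Lib.MP_ae5b4e_an_K1.Defs
import Pool.Agent.Lib.MP_ae5b4e_an_K1.Ric

/-!
# MP_ae5b4e_an, block K1: the node relation in the frame
-/

set_option autoImplicit false

noncomputable section

namespace Pool.Agent.MP_ae5b4e_an_K1

open Complex Set Filter Topology Metric
open Pool.Agent.MP_ae5b4e_an_NB2 (Sys)
open Pool.Agent.MP_ae5b4e_an_AT (lam)

/-- the node relation, algebraic part -/
theorem nod_alg {P P' M M' Pu Mu Pw Mw c su cu sw cw : ℂ} (hc : c ≠ 0) (hP : P ≠ 0) (hM : M ≠ 0)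
    (hMu : Mu ≠ 0) (hPw : Pw ≠ 0) (g1 : c * su = Pu * M - P * Mu)
    (g2 : c * cu = Mu * P' - Pu * M') (g3 : c * sw = Pw * M - P * Mw)
    (g4 : c * cw = Mw * P' - Pw * M') (g5 : P' * M - P * M' = c)
    (hu : Pu / Mu / (P / M) ≠ 1) (hw : P / M / (Pw / Mw) ≠ 1) :
    cu * sw + cw * su = 0 ↔ 1 / (Pu / Mu / (P / M) - 1) = 1 / (P / M / (Pw / Mw) - 1) +
      (P' * M + P * M') / c := by
  have e1 : Pu / Mu / (P / M) - 1 = c * su / (Mu * P) := by
    rw [g1]
    field_simp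
  have e2 : P / M / (Pw / Mw) - 1 = -(c * sw) / (M * Pw) := by
    rw [g3]
    field_simp
    ring
  have hsu : su ≠ 0 := by
    intro h
    apply hu
    have h1 := e1
    rw [h, mul_zero, zero_div] at h1
    exact sub_eq_zero.1 h1
  have hsw : sw ≠ 0 := by
    intro h
    apply hw
    have h1 := e2
    rw [h, mul_zero, neg_zero, zero_div] at h1
    exact sub_eq_zero.1 h1
  rw [e1, e2]
  have e3 : c * (P * M) * (cu * sw + cw * su) =
      c * (P * Mu * sw + M * Pw * su - (P * M' + P' * M) * su * sw) := by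
    have k1 : M * (Mu * P' - Pu * M') = c * (Mu - M' * su) := by
      linear_combination Mu * g5 + M' * g1
    have k2 : P * (Mw * P' - Pw * M') = c * (Pw - P' * sw) := by
      linear_combination Pw * g5 + P' * g3
    calc c * (P * M) * (cu * sw + cw * su)
        = P * sw * (M * (c * cu)) + M * su * (P * (c * cw)) := by ring
      _ = P * sw * (c * (Mu - M' * su)) + M * su * (c * (Pw - P' * sw)) := by
          rw [g2, g4, k1, k2]
      _ = _ := by ring
  have e4 : (1 / (c * su / (Mu * P)) = 1 / (-(c * sw) / (M * Pw)) + (P' * M + P * M') / c) ↔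
      P * Mu * sw + M * Pw * su - (P * M' + P' * M) * su * sw = 0 := by
    have e5 : 1 / (c * su / (Mu * P)) - (1 / (-(c * sw) / (M * Pw)) + (P' * M + P * M') / c) =
        (P * Mu * sw + M * Pw * su - (P * M' + P' * M) * su * sw) / (c * su * sw) := by
      field_simp
      ring
    rw [← sub_eq_zero, e5, div_eq_zero_iff]
    constructor
    · rintro (h | h)
      · exact h
      · exact absurd h (mul_ne_zero (mul_ne_zero hc hsu) hsw)
    · exact Or.inl
  rw [e4]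
  constructor
  · intro h
    rw [h, mul_zero] at e3
    exact (mul_eq_zero.1 e3.symm).resolve_left hc
  · intro h
    rw [h, mul_zero] at e3
    exact (mul_eq_zero.1 e3).resolve_left (mul_ne_zero hc (mul_ne_zero hP hM))

/-- NODE RELATION in the frame. -/
theorem Fr.node_iff {Y : Sys} {S : Set ℂ} {lb ℓ : ℂ} {R₁ ρ h : ℝ} {a b a' b' : ℂ}
    {X E A : ℂ → ℂ} (hF : Fr Y lb ℓ R₁ ρ h a b a' b' X E A) (hY : Y.On S) (hS : ball lb R₁ ⊆ S)
    {l u w : ℂ} (hl : l ∈ ball lb R₁) (hu : u ∈ ball lb R₁) (hw : w ∈ ball lb R₁)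
    (hx : X l ∈ ball (0:ℂ) ρ) (hlu : cexp ((X u - X l) / h) ≠ 1)
    (hlw : cexp ((X l - X w) / h) ≠ 1) :
    Y.node l u w ↔ cexp (-ℓ) / (cexp ((X u - X l) / h) - 1) =
      cexp (-ℓ) / (cexp ((X l - X w) / h) - 1) + h * A (X l) := by
  obtain ⟨c, hc⟩ : ∃ c : ℂ, c = b * a' - a * b' := ⟨_, rfl⟩
  have hc0 : c ≠ 0 := by rw [hc]; exact hF.wr
  have hh : (h : ℂ) ≠ 0 := by exact_mod_cast hF.h_pos.ne'
  have hwr := hY.wr l (hS hl)
  -- the derivative of `X`
  have hexp : ∀ z ∈ ball lb R₁, HasDerivAt X (h * c / ((a * Y.y1 z + b * Y.y2 z) *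
      (a' * Y.y1 z + b' * Y.y2 z))) z := by
    intro z hz
    obtain ⟨n1, n2⟩ := hF.ne z hz
    have h1 : HasDerivAt X (deriv X z) z :=
      ((hF.crd.X_an z hz).differentiableAt (isOpen_ball.mem_nhds hz)).hasDerivAt
    have h2 := (h1.div_const (h:ℂ)).cexp
    have h3 := (hasDerivAt_comb hY a b (hS hz)).div (hasDerivAt_comb hY a' b' (hS hz)) n2
    have h4 : (fun z => cexp (X z / h)) =ᶠ[𝓝 z]
        fun z => (a * Y.y1 z + b * Y.y2 z) / (a' * Y.y1 z + b' * Y.y2 z) := by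
      filter_upwards [isOpen_ball.mem_nhds hz] with y hy
      exact hF.exp y hy
    have h5 := h2.unique (h3.congr_of_eventuallyEq h4)
    rw [hF.exp z hz] at h5
    have h6 := hY.wr z (hS hz)
    refine h1.congr_deriv ?_
    have h7 : (a * Y.y1' z + b * Y.y2' z) * (a' * Y.y1 z + b' * Y.y2 z) -
        (a * Y.y1 z + b * Y.y2 z) * (a' * Y.y1' z + b' * Y.y2' z) = c := by
      rw [hc]
      linear_combination (b * a' - a * b') * h6
    rw [h7] at h5
    have h8 : ∀ p m d : ℂ, p ≠ 0 → m ≠ 0 → p / m * (d / h) = c / m ^ 2 → d = h * c / (p * m) := by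
      intro p m d hp hm hd
      field_simp at hd ⊢
      linear_combination hd
    exact h8 _ _ _ n1 n2 h5
  have hEl : E (X l) = l := by
    have h1 := hF.crd.E_mem _ hx
    have h2 : ball lb (R₁ / 2) ⊆ ball lb R₁ := ball_subset_ball (by linarith [hF.crd.R₁_pos])
    exact hF.crd.X_inj (h2 h1) hl (hF.crd.X_E _ hx)
  obtain ⟨n1, n2⟩ := hF.ne l hl
  obtain ⟨n3, n4⟩ := hF.ne u hu
  obtain ⟨n5, n6⟩ := hF.ne w hw
  have hA : h * A (X l) = cexp (-ℓ) * (((a * Y.y1' l + b * Y.y2' l) *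
      (a' * Y.y1 l + b' * Y.y2 l) + (a * Y.y1 l + b * Y.y2 l) *
      (a' * Y.y1' l + b' * Y.y2' l)) / c) := by
    rw [hF.crd.A_eq _ hx, hEl]
    have h1 : (fun z => 1 / deriv X z) =ᶠ[𝓝 l] fun z => ((a * Y.y1 z + b * Y.y2 z) *
        (a' * Y.y1 z + b' * Y.y2 z)) / (h * c) := by
      filter_upwards [isOpen_ball.mem_nhds hl] with y hy
      rw [(hexp y hy).deriv, one_div_div]
    have h2 := ((hasDerivAt_comb hY a b (hS hl)).mul (hasDerivAt_comb hY a' b' (hS hl))).div_const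
      (h * c)
    have h3 : deriv (fun z => ((a * Y.y1 z + b * Y.y2 z) * (a' * Y.y1 z + b' * Y.y2 z)) /
        (h * c)) l = ((a * Y.y1' l + b * Y.y2' l) * (a' * Y.y1 l + b' * Y.y2 l) +
          (a * Y.y1 l + b * Y.y2 l) * (a' * Y.y1' l + b' * Y.y2' l)) / (h * c) := h2.deriv
    rw [h1.deriv_eq, h3]
    field_simp
  have hD1 : cexp ((X u - X l) / h) = (a * Y.y1 u + b * Y.y2 u) / (a' * Y.y1 u + b' * Y.y2 u) /
      ((a * Y.y1 l + b * Y.y2 l) / (a' * Y.y1 l + b' * Y.y2 l)) := by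
    rw [sub_div, Complex.exp_sub, hF.exp u hu, hF.exp l hl]
  have hD2 : cexp ((X l - X w) / h) = (a * Y.y1 l + b * Y.y2 l) / (a' * Y.y1 l + b' * Y.y2 l) /
      ((a * Y.y1 w + b * Y.y2 w) / (a' * Y.y1 w + b' * Y.y2 w)) := by
    rw [sub_div, Complex.exp_sub, hF.exp w hw, hF.exp l hl]
  rw [hD1] at hlu
  rw [hD2] at hlw
  rw [hD1, hD2, hA]
  have key := nod_alg (P' := a * Y.y1' l + b * Y.y2' l) (M' := a' * Y.y1' l + b' * Y.y2' l)
    (c := c) (su := Y.s u l) (cu := Y.c u l) (sw := Y.s w l) (cw := Y.c w l)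
    hc0 n1 n2 n4 n5 (by rw [hc]; unfold Sys.s; ring) (by rw [hc]; unfold Sys.c; ring)
    (by rw [hc]; unfold Sys.s; ring) (by rw [hc]; unfold Sys.c; ring)
    (by rw [hc]; linear_combination (b * a' - a * b') * hwr) hlu hlw
  have hnode : Y.node l u w ↔ Y.c u l * Y.s w l + Y.c w l * Y.s u l = 0 := Iff.rfl
  rw [hnode, key]
  have he : cexp (-ℓ) ≠ 0 := Complex.exp_ne_zero _
  constructor
  · intro h1
    linear_combination cexp (-ℓ) * h1
  · intro h1
    apply mul_left_cancel₀ he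
    linear_combination h1

/-- `exp (lam ℓ z) = 1 + 1 / (e^ℓ z)` -/
theorem exp_lam {ℓ z : ℂ} (h0 : z ≠ 0) (h1 : 1 + cexp ℓ * z ≠ 0) :
    cexp (lam ℓ z) = 1 + 1 / (cexp ℓ * z) := by
  unfold lam
  rw [Complex.exp_sub, Complex.exp_sub, Complex.exp_log h1, Complex.exp_log h0]
  have := Complex.exp_ne_zero ℓ
  field_simp
  ring

end Pool.Agent.MP_ae5b4e_an_K1
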