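import Pool.Agent.Lib.MP_ae5b4e_an_K1.Wkb
import Pool.Agent.Lib.MP_ae5b4e_an_K1.Nod
import Pool.Agent.Lib.MP_ae5b4e_an_M.ZA

/-!
# MP_ae5b4e_an, block K1 (WKB frame): the frame in the windows

`wkb` (module `Wkb`), `Fr.node_iff`, `exp_lam` (module `Nod`), `wkb_win` (here).
-/

set_option autoImplicit false

noncomputable section

namespace Pool.Agent.MP_ae5b4e_an_K1

open Complex Set Filter Topology Metric
open Pool.Agent.MP_ae5b4e_an_NB2 (Sys)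
open Pool.Agent.MP_ae5b4e_an_AT (lam Side Cl)
open Pool.Agent.MP_ae5b4e_an_PB (Base)
open Pool.Agent.MP_ae5b4e_an_M (Win Zn qI Zn_on Zn_lim)
open PorTR (Hm)

/-- THE WKB FRAME in a sequence of windows: `N n = V n / c n`. -/
theorem wkb_win {Y : Sys} {h R' C0 : ℝ} {v : ℂ → ℝ} {G L : ℂ × ℂ → ℂ} {U : Ultrafilter ℕ}
    {β C1 : ℝ} {c V : ℕ → ℝ} (hB : Base Y h R' C0 v G L) (HW : Win v U β C1 c V) (x : ℕ → ℝ)
    {κ : ℂ → ℂ} {lb ℓ : ℂ} {R : ℝ} (hR : 0 < R) (hRH : closedBall lb R ⊆ Hm)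
    (hκ : DifferentiableOn ℂ κ (ball lb R)) (hq : ∀ l ∈ ball lb R, κ l ^ 2 = qI Y h U x c V l)
    (h0 : κ lb ≠ 0) (hℓ : cexp ℓ = deriv (fun l => 1 / (2 * I * κ l)) lb) :
    ∃ (R₁ ρ : ℝ) (X₀ E₀ A₀ Φ : ℂ → ℂ), R₁ < R ∧ Lim κ lb ℓ R₁ ρ X₀ E₀ A₀ Φ ∧
      ∀ ε : ℝ, 0 < ε → ∀ᶠ n in (U : Filter ℕ),
        (Zn Y h x V n).On (ball lb R) ∧
        ∃ (a b a' b' : ℂ) (X E A : ℂ → ℂ),
          Fr (Zn Y h x V n) lb ℓ R₁ ρ (c n / V n) a b a' b' X E A ∧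
          Near lb R₁ ρ ε X E A X₀ E₀ A₀ := by
  obtain ⟨R₁, ρ, X₀, E₀, A₀, Φ, hR₁, hL, hW⟩ := wkb hR hκ h0 hℓ
  refine ⟨R₁, ρ, X₀, E₀, A₀, Φ, hR₁, hL, fun ε hε => ?_⟩
  obtain ⟨δ, N₀, hδ, hN₀, hfr⟩ := hW ε hε
  have e1 := Zn_lim hB HW x (isCompact_closedBall lb R) hRH hδ
  have e2 : ∀ᶠ n in (U : Filter ℕ), N₀ ≤ V n / c n := HW.N_lim.eventually (eventually_ge_atTop N₀)
  filter_upwards [e1, e2] with n h1 h2
  have hVn := HW.V_pos n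
  have hcn := HW.c_pos n
  have hOn : (Zn Y h x V n).On (ball lb R) := by
    have h3 := Zn_on (x := x) hB.h_pos hVn hB.on
    have h4 : ∀ z ∈ ball lb R, z ∈ {z : ℂ | z.im < 0 ∧ -z.im < h / V n} := fun z hz =>
      ⟨hRH (ball_subset_closedBall hz), h1.1 z (ball_subset_closedBall hz)⟩
    exact ⟨fun z hz => h3.d1 z (h4 z hz), fun z hz => h3.d1' z (h4 z hz),
      fun z hz => h3.d2 z (h4 z hz), fun z hz => h3.d2' z (h4 z hz), fun z hz => h3.wr z (h4 z hz)⟩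
  refine ⟨hOn, ?_⟩
  have hNn : 0 < V n / c n := div_pos hVn hcn
  obtain ⟨a, b, a', b', X, E, A, hF, hNr⟩ := hfr (Zn Y h x V n) (V n / c n) h2 hOn (by
    intro l hl
    have h3 := (h1.2 l (ball_subset_closedBall hl)).le
    rw [← hq l hl] at h3
    have hVc : (V n : ℂ) ≠ 0 := by exact_mod_cast hVn.ne'
    have hcc : (c n : ℂ) ≠ 0 := by exact_mod_cast hcn.ne'
    have h4 : (Zn Y h x V n).Q l - ((V n / c n : ℝ) : ℂ) ^ 2 * κ l ^ 2 =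
        ((V n / c n : ℝ) : ℂ) ^ 2 * (((c n / V n : ℝ) : ℂ) ^ 2 * (Zn Y h x V n).Q l - κ l ^ 2) := by
      push_cast
      field_simp
    rw [h4, norm_mul, norm_pow, Complex.norm_real, Real.norm_of_nonneg hNn.le, mul_comm]
    exact mul_le_mul_of_nonneg_right h3 (by positivity))
  rw [one_div_div] at hF
  exact ⟨a, b, a', b', X, E, A, hF, hNr⟩

end Pool.Agent.MP_ae5b4e_an_K1
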