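import Pool.Agent.Lib.MP_ae5b4e_an_AT.Defs
import Pool.Agent.Lib.MP_ae5b4e_an_NB2.Defs

/-!
# MP_ae5b4e_an, block K1 (WKB frame): definitions

`Y` is a system on a ball about the label `lb`, its potential is `N² (q + o(1))`, `q = κ²`,
`h = 1 / N`.
`F = (a y1 + b y2) / (a' y1 + b' y2) = exp (X / h)`, `X' → 2 i κ`, `E` is the inverse of `X` and
`A (x) = e^(-ℓ) (1 / X')' (E x)`, with `e^ℓ = (1 / (2 i κ))' (lb)`.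
-/

set_option autoImplicit false

noncomputable section

namespace Pool.Agent.MP_ae5b4e_an_K1

open Complex Set Filter Topology Metric
open Pool.Agent.MP_ae5b4e_an_NB2 (Sys)

/-- a coordinate `X` on `ball lb R₁`, `X lb = 0`, with inverse `E` on `ball 0 ρ`, and
`A = e^(-ℓ) (1 / X')' ∘ E` -/
structure Crd (lb ℓ : ℂ) (R₁ ρ : ℝ) (X E A : ℂ → ℂ) : Prop where
  R₁_pos : 0 < R₁
  ρ_pos : 0 < ρ
  X_an : DifferentiableOn ℂ X (ball lb R₁)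
  X_lb : X lb = 0
  X_inj : InjOn X (ball lb R₁)
  X_ne : ∀ l ∈ ball lb R₁, deriv X l ≠ 0
  E_an : DifferentiableOn ℂ E (ball 0 ρ)
  E_mem : ∀ x ∈ ball (0:ℂ) ρ, E x ∈ ball lb (R₁ / 2)
  X_E : ∀ x ∈ ball (0:ℂ) ρ, X (E x) = x
  A_eq : ∀ x ∈ ball (0:ℂ) ρ, A x = cexp (-ℓ) * deriv (fun l => 1 / deriv X l) (E x)
  A_an : DifferentiableOn ℂ A (ball 0 ρ)

/-- the limit frame, with the energy `Φ` of block AT -/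
structure Lim (κ : ℂ → ℂ) (lb ℓ : ℂ) (R₁ ρ : ℝ) (X E A Φ : ℂ → ℂ) : Prop where
  crd : Crd lb ℓ R₁ ρ X E A
  κ_ne : ∀ l ∈ ball lb R₁, κ l ≠ 0
  dX : ∀ l ∈ ball lb R₁, HasDerivAt X (2 * I * κ l) l
  side : Pool.Agent.MP_ae5b4e_an_AT.Side ℓ 0 ρ A Φ
  expΦ : ∀ x ∈ ball (0:ℂ) ρ, cexp (-Φ x) = cexp 1 / (2 * I * κ (E x))

/-- the frame of the system `Y`: two solutions without zeros, with quotient `exp (X / h)` -/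
structure Fr (Y : Sys) (lb ℓ : ℂ) (R₁ ρ h : ℝ) (a b a' b' : ℂ) (X E A : ℂ → ℂ) : Prop where
  crd : Crd lb ℓ R₁ ρ X E A
  h_pos : 0 < h
  wr : b * a' - a * b' ≠ 0
  ne : ∀ l ∈ ball lb R₁, a * Y.y1 l + b * Y.y2 l ≠ 0 ∧ a' * Y.y1 l + b' * Y.y2 l ≠ 0
  exp : ∀ l ∈ ball lb R₁,
    cexp (X l / h) = (a * Y.y1 l + b * Y.y2 l) / (a' * Y.y1 l + b' * Y.y2 l)

/-- the frame is `ε`-close to the limit frame -/
structure Near (lb : ℂ) (R₁ ρ ε : ℝ) (X E A X₀ E₀ A₀ : ℂ → ℂ) : Prop where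
  X_cl : ∀ l ∈ ball lb R₁, ‖X l - X₀ l‖ ≤ ε
  dX_cl : ∀ l ∈ ball lb R₁, ‖deriv X l - deriv X₀ l‖ ≤ ε
  E_cl : ∀ x ∈ ball (0:ℂ) ρ, ‖E x - E₀ x‖ ≤ ε
  A_cl : ∀ x ∈ ball (0:ℂ) ρ, ‖A x - A₀ x‖ ≤ ε

end Pool.Agent.MP_ae5b4e_an_K1
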