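import Pool.Agent.Lib.MP_ae5b4e_an_K1.Fro
import Pool.Agent.Lib.MP_ae5b4e_an_K1.Ric
import Pool.Agent.Lib.MP_ae5b4e_an_N4.SGd

/-!
# MP_ae5b4e_an, block K1: the frame of one system
-/

set_option autoImplicit false

noncomputable section

namespace Pool.Agent.MP_ae5b4e_an_K1

open Complex Set Filter Topology Metric
open Pool.Agent.MP_ae5b4e_an_NB2 (Sys)

/-- the two solutions and the coordinate `X` of a system, on `ball lb s` -/
theorem frm1 {Y : Sys} {κ : ℂ → ℂ} {lb : ℂ} {s N δ : ℝ} (hs : 0 < s) (hN : 0 < N)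
    (h0 : κ lb ≠ 0) (hκ : ∀ l ∈ ball lb (5 * s), ‖κ l - κ lb‖ ≤ ‖κ lb‖ / 200)
    (hY : Y.On (ball lb (5 * s))) (hδ : δ ≤ ‖κ lb‖ ^ 2 / 100)
    (hQ : ∀ l ∈ ball lb (5 * s), ‖Y.Q l - N ^ 2 * κ l ^ 2‖ ≤ δ * N ^ 2) :
    ∃ (a b a' b' : ℂ) (X X' : ℂ → ℂ), b * a' - a * b' ≠ 0 ∧ X lb = 0 ∧
      (∀ l ∈ ball lb s, (a * Y.y1 l + b * Y.y2 l ≠ 0 ∧ a' * Y.y1 l + b' * Y.y2 l ≠ 0) ∧
        HasDerivAt X (X' l) l ∧ ‖X' l - 2 * I * κ lb‖ ≤ ‖2 * I * κ lb‖ / 10 ∧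
        cexp (X l / (1 / N : ℝ)) =
          (a * Y.y1 l + b * Y.y2 l) / (a' * Y.y1 l + b' * Y.y2 l)) ∧
      ∀ δ' : ℝ, (∀ l ∈ ball lb (5 * s), ‖Y.Q l - N ^ 2 * κ l ^ 2‖ ≤ δ' * N ^ 2) →
        ∀ l ∈ ball lb (s / 2), ‖X' l - 2 * I * κ l‖ ≤ 2 * (δ' / ‖κ lb‖ + 4 / (s * N)) := by
  have hκ0 : 0 < ‖κ lb‖ := norm_pos_iff.2 h0
  have hNc : (N : ℂ) ≠ 0 := by exact_mod_cast hN.ne'
  obtain ⟨m, hm⟩ : ∃ m : ℂ, m = I * N * κ lb := ⟨_, rfl⟩
  have hmn : ‖m‖ = N * ‖κ lb‖ := by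
    rw [hm, norm_mul, norm_mul, Complex.norm_I, one_mul, Complex.norm_real,
      Real.norm_of_nonneg hN.le]
  have hm0 : m ≠ 0 := norm_pos_iff.1 (by rw [hmn]; positivity)
  have hm0' : -m ≠ 0 := neg_ne_zero.2 hm0
  have hQm : ∀ l ∈ ball lb (5 * s), ‖Y.Q l + m ^ 2‖ ≤ ‖m‖ ^ 2 / 40 := by
    intro l hl
    have h1 : Y.Q l + m ^ 2 = (Y.Q l - N ^ 2 * κ l ^ 2) +
        N ^ 2 * ((κ l - κ lb) * (κ l - κ lb + 2 * κ lb)) := by
      rw [hm]
      linear_combination (N : ℂ) ^ 2 * κ lb ^ 2 * Complex.I_sq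
    rw [h1]
    refine (norm_add_le _ _).trans ?_
    have h2 := hQ l hl
    have h3 := hκ l hl
    have h4 : ‖(N : ℂ) ^ 2 * ((κ l - κ lb) * (κ l - κ lb + 2 * κ lb))‖ ≤
        N ^ 2 * (‖κ lb‖ / 200 * (3 * ‖κ lb‖)) := by
      rw [norm_mul, norm_pow, Complex.norm_real, Real.norm_of_nonneg hN.le, norm_mul]
      have h5 : ‖κ l - κ lb + 2 * κ lb‖ ≤ 3 * ‖κ lb‖ := by
        refine (norm_add_le _ _).trans ?_
        rw [norm_mul, Complex.norm_ofNat]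
        linarith
      gcongr
    have h6 : δ * N ^ 2 ≤ ‖κ lb‖ ^ 2 / 100 * N ^ 2 :=
      mul_le_mul_of_nonneg_right hδ (by positivity)
    rw [hmn]
    have h7 : 0 < N ^ 2 * ‖κ lb‖ ^ 2 := by positivity
    nlinarith
  have hQm' : ∀ l ∈ ball lb (5 * s), ‖Y.Q l + (-m) ^ 2‖ ≤ ‖-m‖ ^ 2 / 40 := by
    intro l hl
    rw [neg_sq, norm_neg]
    exact hQm l hl
  obtain ⟨a, b, hp⟩ := sol1 hs hm0 hY hQm
  obtain ⟨a', b', hq⟩ := sol1 hs hm0' hY hQm'
  have hsub : ball lb s ⊆ ball lb (5 * s) := ball_subset_ball (by linarith)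
  obtain ⟨P, hP⟩ : ∃ P : ℂ → ℂ, P = fun l => a * Y.y1 l + b * Y.y2 l := ⟨_, rfl⟩
  obtain ⟨P', hP'⟩ : ∃ P : ℂ → ℂ, P = fun l => a * Y.y1' l + b * Y.y2' l := ⟨_, rfl⟩
  obtain ⟨M, hM⟩ : ∃ P : ℂ → ℂ, P = fun l => a' * Y.y1 l + b' * Y.y2 l := ⟨_, rfl⟩
  obtain ⟨M', hM'⟩ : ∃ P : ℂ → ℂ, P = fun l => a' * Y.y1' l + b' * Y.y2' l := ⟨_, rfl⟩
  have hP0 : ∀ l ∈ ball lb s, P l ≠ 0 := fun l hl => by rw [hP]; exact (hp l hl).2
  have hM0 : ∀ l ∈ ball lb s, M l ≠ 0 := fun l hl => by rw [hM]; exact (hq l hl).2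
  obtain ⟨φ, hφ⟩ : ∃ φ : ℂ → ℂ, φ = fun l => P' l / P l := ⟨_, rfl⟩
  obtain ⟨ψ, hψ⟩ : ∃ ψ : ℂ → ℂ, ψ = fun l => M' l / M l := ⟨_, rfl⟩
  have hφd : ∀ l ∈ ball lb s, HasDerivAt φ (-Y.Q l - φ l ^ 2) l := by
    intro l hl
    rw [hφ, hP', hP]
    exact ric1 hY (hsub hl) (hp l hl).2
  have hψd : ∀ l ∈ ball lb s, HasDerivAt ψ (-Y.Q l - ψ l ^ 2) l := by
    intro l hl
    rw [hψ, hM', hM]
    exact ric1 hY (hsub hl) (hq l hl).2
  have hφb : ∀ l ∈ ball lb s, ‖φ l - m‖ ≤ ‖m‖ / 10 := by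
    intro l hl
    have h1 := (hp l hl).1
    have h2 : φ l - m = (P' l - m * P l) / P l := by
      have := hP0 l hl
      rw [hφ]
      field_simp
    have h3 : ‖P' l - m * P l‖ ≤ ‖m‖ / 10 * ‖P l‖ := by rw [hP, hP']; exact h1
    rw [h2, norm_div, div_le_iff₀ (norm_pos_iff.2 (hP0 l hl))]
    exact h3
  have hψb : ∀ l ∈ ball lb s, ‖ψ l - -m‖ ≤ ‖m‖ / 10 := by
    intro l hl
    have h1 := (hq l hl).1
    have h2 : ψ l - -m = (M' l - -m * M l) / M l := by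
      have := hM0 l hl
      rw [hψ]
      field_simp
    have h3 : ‖M' l - -m * M l‖ ≤ ‖m‖ / 10 * ‖M l‖ := by
      rw [hM, hM']
      rw [norm_neg] at h1
      exact h1
    rw [h2, norm_div, div_le_iff₀ (norm_pos_iff.2 (hM0 l hl))]
    exact h3
  -- the Wronskian
  have hc : ∀ l ∈ ball lb s, P' l * M l - P l * M' l = b * a' - a * b' := by
    intro l hl
    rw [hP, hP', hM, hM']
    dsimp only
    linear_combination (b * a' - a * b') * hY.wr l (hsub hl)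
  have hlb : lb ∈ ball lb s := mem_ball_self hs
  have hc0 : b * a' - a * b' ≠ 0 := by
    rw [← hc lb hlb]
    intro h
    have h1 : φ lb = ψ lb := by
      rw [hφ, hψ]
      dsimp only
      rw [div_eq_div_iff (hP0 lb hlb) (hM0 lb hlb)]
      linear_combination h
    have h2 := hφb lb hlb
    have h3 := hψb lb hlb
    rw [← h1] at h3
    have h4 : 2 * m = (φ lb - -m) - (φ lb - m) := by ring
    have h5 : ‖2 * m‖ ≤ ‖m‖ / 10 + ‖m‖ / 10 := by
      rw [h4]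
      exact (norm_sub_le _ _).trans (add_le_add h3 h2)
    rw [norm_mul, Complex.norm_ofNat] at h5
    have h6 := norm_pos_iff.2 hm0
    linarith
  -- the quotient
  obtain ⟨n, hn⟩ : ∃ n : ℂ → ℂ, n = fun l => φ l - ψ l := ⟨_, rfl⟩
  have hnd : DifferentiableOn ℂ n (ball lb s) := fun l hl => by
    rw [hn]
    exact ((hφd l hl).differentiableAt.sub (hψd l hl).differentiableAt).differentiableWithinAt
  have hPd : ∀ l ∈ ball lb s, HasDerivAt P (P' l) l := fun l hl => by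
    rw [hP, hP']
    exact hasDerivAt_comb hY a b (hsub hl)
  have hMd : ∀ l ∈ ball lb s, HasDerivAt M (M' l) l := fun l hl => by
    rw [hM, hM']
    exact hasDerivAt_comb hY a' b' (hsub hl)
  have hFd : ∀ l ∈ ball lb s, HasDerivAt (fun l => P l / M l) (n l * (P l / M l)) l := by
    intro l hl
    have h1 := (hPd l hl).div (hMd l hl) (hM0 l hl)
    refine h1.congr_deriv ?_
    have h2 := hP0 l hl
    have h3 := hM0 l hl
    rw [hn, hφ, hψ]
    dsimp only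
    field_simp
  obtain ⟨G, hG, hGe⟩ := Pool.Agent.MP_ae5b4e_an_N4.exists_logF isOpen_ball (convex_ball lb s) hFd
    (fun l hl => div_ne_zero (hP0 l hl) (hM0 l hl)) hnd
  obtain ⟨c, hcdef⟩ : ∃ c : ℂ, c = cexp (-G lb) := ⟨_, rfl⟩
  have hcne : c ≠ 0 := by rw [hcdef]; exact Complex.exp_ne_zero _
  refine ⟨c * a, c * b, a', b', fun l => (G l - G lb) / N, fun l => n l / N, ?_, ?_, ?_, ?_⟩
  · have h1 : c * b * a' - c * a * b' = c * (b * a' - a * b') := by ring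
    rw [h1]
    exact mul_ne_zero hcne hc0
  · simp
  · intro l hl
    have hPe : c * a * Y.y1 l + c * b * Y.y2 l = c * P l := by
      rw [hP]
      ring
    have hMe : a' * Y.y1 l + b' * Y.y2 l = M l := by rw [hM]
    refine ⟨⟨?_, ?_⟩, ((hG l hl).sub_const _).div_const _, ?_, ?_⟩
    · rw [hPe]
      exact mul_ne_zero hcne (hP0 l hl)
    · rw [hMe]
      exact hM0 l hl
    · have h1 : n l / N - 2 * I * κ lb = ((φ l - m) - (ψ l - -m)) / N := by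
        rw [hn, hm]
        field_simp
        ring
      rw [h1, norm_div, Complex.norm_real, Real.norm_of_nonneg hN.le, div_le_iff₀ hN]
      refine (norm_sub_le _ _).trans ?_
      have h2 := hφb l hl
      have h3 := hψb l hl
      rw [hmn] at h2 h3
      rw [norm_mul, norm_mul, Complex.norm_I, mul_one, Complex.norm_ofNat]
      linarith
    · have h1 : (G l - G lb) / N / ((1 / N : ℝ) : ℂ) = G l + -G lb := by
        push_cast
        field_simp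
        ring
      rw [h1, Complex.exp_add, hGe l hl, ← hcdef, hPe, hMe]
      ring
  · intro δ' hQ' l hl
    have hN2 : (0:ℝ) < N ^ 2 := by positivity
    obtain ⟨Q, hQd⟩ : ∃ Q : ℂ → ℂ, Q = fun l => Y.Q l / N ^ 2 := ⟨_, rfl⟩
    have hQb : ∀ l ∈ ball lb s, ‖Q l + (I * κ l) ^ 2‖ ≤ δ' := by
      intro l hl
      have h1 := hQ' l (hsub hl)
      have h2 : Q l + (I * κ l) ^ 2 = (Y.Q l - N ^ 2 * κ l ^ 2) / N ^ 2 := by
        rw [hQd]
        field_simp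
        linear_combination ((N:ℂ) ^ 2 * κ l ^ 2) * Complex.I_sq
      rw [h2, norm_div, norm_pow, Complex.norm_real, Real.norm_of_nonneg hN.le,
        div_le_iff₀ hN2]
      exact h1
    have hI1 : ‖I * κ lb‖ = ‖κ lb‖ := by rw [norm_mul, Complex.norm_I, one_mul]
    have hI0 : I * κ lb ≠ 0 := mul_ne_zero I_ne_zero h0
    have hkb : ∀ l ∈ ball lb s, ‖I * κ l - I * κ lb‖ ≤ ‖I * κ lb‖ / 10 := by
      intro l hl
      rw [← mul_sub, norm_mul, Complex.norm_I, one_mul, hI1]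
      have := hκ l (hsub hl)
      linarith
    have r1 : ∀ l ∈ ball lb s, HasDerivAt (fun l => φ l / N) (N * (-(Q l) - (φ l / N) ^ 2)) l := by
      intro l hl
      refine ((hφd l hl).div_const (N:ℂ)).congr_deriv ?_
      rw [hQd]
      field_simp
    have r2 : ∀ l ∈ ball lb s, ‖φ l / N - I * κ lb‖ ≤ ‖I * κ lb‖ / 10 := by
      intro l hl
      have h1 : φ l / N - I * κ lb = (φ l - m) / N := by
        rw [hm]
        field_simp
      rw [h1, norm_div, Complex.norm_real, Real.norm_of_nonneg hN.le, div_le_iff₀ hN, hI1]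
      have h2 := hφb l hl
      rw [hmn] at h2
      linarith
    have r3 : ∀ l ∈ ball lb s, HasDerivAt (fun l => ψ l / N) (N * (-(Q l) - (ψ l / N) ^ 2)) l := by
      intro l hl
      refine ((hψd l hl).div_const (N:ℂ)).congr_deriv ?_
      rw [hQd]
      field_simp
    have r4 : ∀ l ∈ ball lb s, ‖ψ l / N - -(I * κ lb)‖ ≤ ‖-(I * κ lb)‖ / 10 := by
      intro l hl
      have h1 : ψ l / N - -(I * κ lb) = (ψ l - -m) / N := by
        rw [hm]
        field_simp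
      rw [h1, norm_div, Complex.norm_real, Real.norm_of_nonneg hN.le, div_le_iff₀ hN, norm_neg,
        hI1]
      have h2 := hψb l hl
      rw [hmn] at h2
      linarith
    have r5 : ∀ l ∈ ball lb s, ‖-(I * κ l) - -(I * κ lb)‖ ≤ ‖-(I * κ lb)‖ / 10 := by
      intro l hl
      have h1 : -(I * κ l) - -(I * κ lb) = -(I * κ l - I * κ lb) := by ring
      rw [h1, norm_neg, norm_neg]
      exact hkb l hl
    have r6 : ∀ l ∈ ball lb s, ‖Q l + (-(I * κ l)) ^ 2‖ ≤ δ' := by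
      intro l hl
      rw [neg_sq]
      exact hQb l hl
    have e1 := root1 (k := fun l => I * κ l) hs hN hI0 r1 r2 hkb hQb l hl
    have e2 := root1 (k := fun l => -(I * κ l)) hs hN (neg_ne_zero.2 hI0) r3 r4 r5 r6 l hl
    rw [norm_neg] at e2
    rw [hI1] at e1 e2
    have h1 : n l / N - 2 * I * κ l = (φ l / N - I * κ l) - (ψ l / N - -(I * κ l)) := by
      rw [hn]
      ring
    dsimp only
    rw [h1]
    refine (norm_sub_le _ _).trans ?_
    linarith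

end Pool.Agent.MP_ae5b4e_an_K1
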