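import Mathlib

/-!
# MP_ae5b4e_an, block K1: inverse function theorem in one complex variable, quantitative
-/

set_option autoImplicit false

noncomputable section

namespace Pool.Agent.MP_ae5b4e_an_K1

open Complex Set Filter Topology Metric

/-- the map `X - a` is a contraction -/
theorem lip1 {X : ℂ → ℂ} {lb a : ℂ} {s c : ℝ} (hX : DifferentiableOn ℂ X (ball lb s))
    (hd : ∀ l ∈ ball lb s, ‖deriv X l - a‖ ≤ c) {l l' : ℂ} (hl : l ∈ ball lb s)
    (hl' : l' ∈ ball lb s) : ‖X l - X l' - a * (l - l')‖ ≤ c * ‖l - l'‖ := by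
  have h1 : ∀ z ∈ ball lb s,
      HasDerivWithinAt (fun z => X z - a * z) (deriv X z - a) (ball lb s) z := by
    intro z hz
    have h2 := ((hX z hz).differentiableAt (isOpen_ball.mem_nhds hz)).hasDerivAt
    have h3 := h2.sub ((hasDerivAt_id z).const_mul a)
    rw [mul_one] at h3
    exact h3.hasDerivWithinAt
  have h4 := (convex_ball lb s).norm_image_sub_le_of_norm_hasDerivWithin_le h1 hd hl' hl
  have h5 : X l - a * l - (X l' - a * l') = X l - X l' - a * (l - l') := by ring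
  rw [h5] at h4
  exact h4

/-- the lower bound -/
theorem low1 {X : ℂ → ℂ} {lb a : ℂ} {s : ℝ} (hX : DifferentiableOn ℂ X (ball lb s))
    (hd : ∀ l ∈ ball lb s, ‖deriv X l - a‖ ≤ ‖a‖ / 4) {l l' : ℂ} (hl : l ∈ ball lb s)
    (hl' : l' ∈ ball lb s) : 3 / 4 * ‖a‖ * ‖l - l'‖ ≤ ‖X l - X l'‖ := by
  have h1 := lip1 hX hd hl hl'
  have h2 : ‖a * (l - l')‖ ≤ ‖X l - X l'‖ + ‖X l - X l' - a * (l - l')‖ := by
    have h3 : a * (l - l') = (X l - X l') - (X l - X l' - a * (l - l')) := by ring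
    calc ‖a * (l - l')‖ = ‖(X l - X l') - (X l - X l' - a * (l - l'))‖ := by rw [← h3]
      _ ≤ _ := norm_sub_le _ _
  rw [norm_mul] at h2
  linarith

/-- a solution of `X l = x` -/
theorem sur1 {X : ℂ → ℂ} {lb a : ℂ} {s : ℝ} (hs : 0 < s) (ha : a ≠ 0)
    (hX : DifferentiableOn ℂ X (ball lb s)) (hd : ∀ l ∈ ball lb s, ‖deriv X l - a‖ ≤ ‖a‖ / 4)
    (h0 : X lb = 0) {x : ℂ} (hx : ‖x‖ < ‖a‖ * s / 8) : ∃ l ∈ ball lb (s / 2), X l = x := by
  have ha' : 0 < ‖a‖ := norm_pos_iff.2 ha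
  obtain ⟨T, hT⟩ : ∃ T : ℂ → ℂ, T = fun l => l - (X l - x) / a := ⟨_, rfl⟩
  have hsub : closedBall lb (s / 4) ⊆ ball lb s := closedBall_subset_ball (by linarith)
  have hTd : ∀ l ∈ ball lb s, ∀ l' ∈ ball lb s, ‖T l - T l'‖ ≤ 1 / 4 * ‖l - l'‖ := by
    intro l hl l' hl'
    have h1 := lip1 hX hd hl hl'
    have h2 : T l - T l' = -(X l - X l' - a * (l - l')) / a := by
      rw [hT]
      field_simp
      ring
    rw [h2, norm_div, norm_neg, div_le_iff₀ ha']
    linarith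
  have hmap : MapsTo T (closedBall lb (s / 4)) (closedBall lb (s / 4)) := by
    intro l hl
    have h1 := hTd l (hsub hl) lb (mem_ball_self hs)
    rw [mem_closedBall, dist_eq_norm] at hl ⊢
    have h2 : T lb = lb + x / a := by
      rw [hT]
      simp only [h0, zero_sub]
      ring
    have h3 : ‖T lb - lb‖ < s / 8 := by
      rw [h2, add_sub_cancel_left, norm_div, div_lt_iff₀ ha']
      linarith
    have h4 : T l - lb = (T l - T lb) + (T lb - lb) := by ring
    rw [h4]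
    refine (norm_add_le _ _).trans ?_
    linarith
  have hcon : ContractingWith (1 / 4) (hmap.restrict T _ _) := by
    refine ⟨?_, ?_⟩
    · rw [← NNReal.coe_lt_coe]
      norm_num
    · refine LipschitzWith.of_dist_le_mul ?_
      rintro ⟨l, hl⟩ ⟨l', hl'⟩
      have h1 := hTd l (hsub hl) l' (hsub hl')
      rw [Subtype.dist_eq, Subtype.dist_eq, dist_eq_norm, dist_eq_norm]
      simpa using h1
  obtain ⟨y, hy, hfix, -⟩ := hcon.exists_fixedPoint' isClosed_closedBall.isComplete hmap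
    (mem_closedBall_self (by positivity) : lb ∈ closedBall lb (s / 4)) (edist_ne_top _ _)
  refine ⟨y, closedBall_subset_ball (by linarith) hy, ?_⟩
  have h1 : T y = y := hfix
  rw [hT] at h1
  have h2 : (X y - x) / a = 0 := by
    have h3 : y - (X y - x) / a = y := h1
    linear_combination -h3
  rw [div_eq_zero_iff] at h2
  rcases h2 with h2 | h2
  · exact sub_eq_zero.1 h2
  · exact absurd h2 ha

/-- the inverse function -/
theorem inv1 {X : ℂ → ℂ} {lb a : ℂ} {s : ℝ} (hs : 0 < s) (ha : a ≠ 0)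
    (hX : DifferentiableOn ℂ X (ball lb s)) (hd : ∀ l ∈ ball lb s, ‖deriv X l - a‖ ≤ ‖a‖ / 4)
    (h0 : X lb = 0) : ∃ E : ℂ → ℂ, ∀ x ∈ ball (0:ℂ) (‖a‖ * s / 8), E x ∈ ball lb (s / 2) ∧
      X (E x) = x ∧ HasDerivAt E (deriv X (E x))⁻¹ x := by
  classical
  have ha' : 0 < ‖a‖ := norm_pos_iff.2 ha
  obtain ⟨E, hE⟩ : ∃ E : ℂ → ℂ, E = fun x => if h : ‖x‖ < ‖a‖ * s / 8 then
      (sur1 hs ha hX hd h0 h).choose else 0 := ⟨_, rfl⟩
  have hE1 : ∀ x ∈ ball (0:ℂ) (‖a‖ * s / 8), E x ∈ ball lb (s / 2) ∧ X (E x) = x := by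
    intro x hx
    have hx' : ‖x‖ < ‖a‖ * s / 8 := by simpa using hx
    have h1 : E x = (sur1 hs ha hX hd h0 hx').choose := by
      rw [hE]
      exact dif_pos hx'
    rw [h1]
    exact (sur1 hs ha hX hd h0 hx').choose_spec
  have hsub : ball lb (s / 2) ⊆ ball lb s := ball_subset_ball (by linarith)
  refine ⟨E, fun x hx => ⟨(hE1 x hx).1, (hE1 x hx).2, ?_⟩⟩
  have hev : ∀ᶠ y in 𝓝 x, y ∈ ball (0:ℂ) (‖a‖ * s / 8) := isOpen_ball.mem_nhds hx
  have hcont : ContinuousAt E x := by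
    rw [Metric.continuousAt_iff']
    intro ε hε
    have h1 : ∀ᶠ y in 𝓝 x, dist y x < 3 / 4 * ‖a‖ * ε :=
      ball_mem_nhds x (by positivity)
    filter_upwards [h1, hev] with y h2 h3
    have h4 := low1 hX hd (hsub (hE1 y h3).1) (hsub (hE1 x hx).1)
    rw [(hE1 y h3).2, (hE1 x hx).2, ← dist_eq_norm, ← dist_eq_norm] at h4
    have h5 : 3 / 4 * ‖a‖ * dist (E y) (E x) < 3 / 4 * ‖a‖ * ε := lt_of_le_of_lt h4 h2
    exact lt_of_mul_lt_mul_left h5 (by positivity)
  have hmem := hsub (hE1 x hx).1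
  have hdX : HasDerivAt X (deriv X (E x)) (E x) :=
    ((hX _ hmem).differentiableAt (isOpen_ball.mem_nhds hmem)).hasDerivAt
  have hne : deriv X (E x) ≠ 0 := by
    intro h
    have h1 := hd _ hmem
    rw [h, zero_sub, norm_neg] at h1
    linarith
  refine hdX.of_local_left_inverse hcont hne ?_
  filter_upwards [hev] with y hy
  exact (hE1 y hy).2

end Pool.Agent.MP_ae5b4e_an_K1
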