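import Pool.Agent.Lib.MP_ae5b4e_an_K1.Defs
import Pool.Agent.Lib.MP_ae5b4e_an_K1.Inv

/-!
# MP_ae5b4e_an, block K1: coordinates from a derivative, the limit frame
-/

set_option autoImplicit false

noncomputable section

namespace Pool.Agent.MP_ae5b4e_an_K1

open Complex Set Filter Topology Metric

/-- the coordinate with given derivative near `a` -/
theorem crd1 {X X' : ℂ → ℂ} {lb ℓ a : ℂ} {s : ℝ} (ha : a ≠ 0)
    (hX : ∀ l ∈ ball lb s, HasDerivAt X (X' l) l) (hd : ∀ l ∈ ball lb s, ‖X' l - a‖ ≤ ‖a‖ / 4)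
    (h0 : X lb = 0) {R₁ ρ : ℝ} (hR : 0 < R₁) (hRs : R₁ ≤ s) (hρ : 0 < ρ) (hρ' : ρ ≤ ‖a‖ * R₁ / 8) :
    ∃ E : ℂ → ℂ, Crd lb ℓ R₁ ρ X E
      (fun x => cexp (-ℓ) * deriv (fun l => 1 / deriv X l) (E x)) ∧
      (∀ x ∈ ball (0:ℂ) ρ, HasDerivAt E (X' (E x))⁻¹ x) ∧ E 0 = lb := by
  have ha' : 0 < ‖a‖ := norm_pos_iff.2 ha
  have hsub : ball lb R₁ ⊆ ball lb s := ball_subset_ball hRs
  have hXd : DifferentiableOn ℂ X (ball lb R₁) := fun l hl =>
    (hX l (hsub hl)).differentiableAt.differentiableWithinAt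
  have hdX : ∀ l ∈ ball lb R₁, ‖deriv X l - a‖ ≤ ‖a‖ / 4 := fun l hl => by
    rw [(hX l (hsub hl)).deriv]
    exact hd l (hsub hl)
  obtain ⟨E, hE⟩ := inv1 hR ha hXd hdX h0
  have hbs : ball (0:ℂ) ρ ⊆ ball (0:ℂ) (‖a‖ * R₁ / 8) := ball_subset_ball hρ'
  have hhalf : ball lb (R₁ / 2) ⊆ ball lb R₁ := ball_subset_ball (by linarith)
  have hne : ∀ l ∈ ball lb R₁, deriv X l ≠ 0 := by
    intro l hl h
    have h1 := hdX l hl
    rw [h, zero_sub, norm_neg] at h1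
    linarith
  have hinj : InjOn X (ball lb R₁) := by
    intro l hl l' hl' h
    have h1 := low1 hXd hdX hl hl'
    rw [h, sub_self, norm_zero] at h1
    have h2 : ‖l - l'‖ ≤ 0 := by
      by_contra h3
      rw [not_le] at h3
      have := mul_pos (mul_pos (by norm_num : (0:ℝ) < 3 / 4) ha') h3
      linarith
    exact sub_eq_zero.1 (norm_le_zero_iff.1 h2)
  have hEd : DifferentiableOn ℂ E (ball 0 ρ) := fun x hx =>
    (hE x (hbs hx)).2.2.differentiableAt.differentiableWithinAt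
  have hXan : DifferentiableOn ℂ (deriv X) (ball lb R₁) := hXd.deriv isOpen_ball
  have h1Xan : DifferentiableOn ℂ (fun l => 1 / deriv X l) (ball lb R₁) :=
    (differentiableOn_const (c := (1:ℂ))).div hXan hne
  have hgan : DifferentiableOn ℂ (deriv fun l => 1 / deriv X l) (ball lb R₁) :=
    h1Xan.deriv isOpen_ball
  refine ⟨E, ⟨hR, hρ, hXd, h0, hinj, hne, hEd, fun x hx => (hE x (hbs hx)).1,
    fun x hx => (hE x (hbs hx)).2.1, fun x _ => rfl, ?_⟩, ?_, ?_⟩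
  · exact (hgan.comp hEd fun x hx => hhalf (hE x (hbs hx)).1).const_mul _
  · intro x hx
    have h1 := (hE x (hbs hx)).2.2
    rwa [(hX _ (hsub (hhalf (hE x (hbs hx)).1))).deriv] at h1
  · have h1 := hE 0 (hbs (mem_ball_self hρ))
    exact hinj (hhalf h1.1) (mem_ball_self hR) (by rw [h1.2.1, h0])

/-- a function with `|κ - κ₀| ≤ |κ₀| / 100` on `ball lb s` -/
theorem near_kappa {κ : ℂ → ℂ} {lb : ℂ} {R : ℝ} (hR : 0 < R)
    (hκ : DifferentiableOn ℂ κ (ball lb R)) (h0 : κ lb ≠ 0) :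
    ∃ s : ℝ, 0 < s ∧ 5 * s < R ∧ ∀ l ∈ ball lb (5 * s), ‖κ l - κ lb‖ ≤ ‖κ lb‖ / 200 := by
  have h1 : ContinuousAt κ lb :=
    (hκ lb (mem_ball_self hR)).differentiableAt (isOpen_ball.mem_nhds (mem_ball_self hR))
      |>.continuousAt
  have h2 : 0 < ‖κ lb‖ / 200 := by
    have := norm_pos_iff.2 h0
    positivity
  obtain ⟨d, hd, h3⟩ := Metric.continuousAt_iff.1 h1 _ h2
  refine ⟨min (d / 10) (R / 10), lt_min (by positivity) (by positivity), ?_, fun l hl => ?_⟩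
  · have := min_le_right (d / 10) (R / 10)
    linarith
  · have h4 := min_le_left (d / 10) (R / 10)
    rw [mem_ball] at hl
    have h5 := h3 (by linarith : dist l lb < d)
    rw [dist_eq_norm] at h5
    exact h5.le

/-- THE LIMIT FRAME. -/
theorem exists_lim {κ : ℂ → ℂ} {lb ℓ : ℂ} {s : ℝ} (hs : 0 < s)
    (hκ : DifferentiableOn ℂ κ (ball lb s)) (h0 : κ lb ≠ 0)
    (hn : ∀ l ∈ ball lb s, ‖κ l - κ lb‖ ≤ ‖κ lb‖ / 200)
    (hℓ : cexp ℓ = deriv (fun l => 1 / (2 * I * κ l)) lb) {R₁ : ℝ} (hR : 0 < R₁) (hRs : R₁ ≤ s) :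
    ∃ (ρ : ℝ) (X₀ E₀ A₀ Φ : ℂ → ℂ), 0 < ρ ∧ ρ ≤ ‖κ lb‖ * R₁ / 8 ∧
      (∀ l ∈ ball lb s, HasDerivAt X₀ (2 * I * κ l) l) ∧ Lim κ lb ℓ R₁ ρ X₀ E₀ A₀ Φ := by
  have hκ0 : 0 < ‖κ lb‖ := norm_pos_iff.2 h0
  have hsub : ball lb R₁ ⊆ ball lb s := ball_subset_ball hRs
  have hne : ∀ l ∈ ball lb s, κ l ≠ 0 := by
    intro l hl h
    have h1 := hn l hl
    rw [h, zero_sub, norm_neg] at h1
    linarith
  -- the primitive
  obtain ⟨X1, hX1⟩ := (convex_ball lb s).exists_forall_hasDerivWithinAt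
    (f := fun l => 2 * I * κ l) (hκ.const_mul (2 * I))
  obtain ⟨X₀, hX₀⟩ : ∃ X₀ : ℂ → ℂ, X₀ = fun l => X1 l - X1 lb := ⟨_, rfl⟩
  have hX : ∀ l ∈ ball lb s, HasDerivAt X₀ (2 * I * κ l) l := by
    intro l hl
    rw [hX₀]
    exact ((hX1 l hl).hasDerivAt (isOpen_ball.mem_nhds hl)).sub_const _
  have hX0 : X₀ lb = 0 := by rw [hX₀]; simp
  have ha : 2 * I * κ lb ≠ 0 := mul_ne_zero (mul_ne_zero two_ne_zero I_ne_zero) h0
  have hna : ‖2 * I * κ lb‖ = 2 * ‖κ lb‖ := by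
    rw [norm_mul, norm_mul, Complex.norm_I, mul_one, Complex.norm_ofNat]
  have hd : ∀ l ∈ ball lb s, ‖2 * I * κ l - 2 * I * κ lb‖ ≤ ‖2 * I * κ lb‖ / 4 := by
    intro l hl
    have h1 : 2 * I * κ l - 2 * I * κ lb = 2 * I * (κ l - κ lb) := by ring
    rw [h1, norm_mul, norm_mul, Complex.norm_I, mul_one, Complex.norm_ofNat, hna]
    have := hn l hl
    linarith
  have hρ1 : 0 < ‖κ lb‖ * R₁ / 8 := by positivity
  obtain ⟨E, hC, hE', hE0⟩ := crd1 (ℓ := ℓ) ha hX hd hX0 hR hRs hρ1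
    (by rw [hna]; nlinarith [mul_pos hκ0 hR])
  obtain ⟨A, hA⟩ : ∃ A : ℂ → ℂ,
    A = fun x => cexp (-ℓ) * deriv (fun l => 1 / deriv X₀ l) (E x) := ⟨_, rfl⟩
  rw [← hA] at hC
  -- the derivative
  have hev : ∀ l ∈ ball lb s, (fun l => 1 / deriv X₀ l) =ᶠ[𝓝 l] fun l => 1 / (2 * I * κ l) := by
    intro l hl
    filter_upwards [isOpen_ball.mem_nhds hl] with z hz
    rw [(hX z hz).deriv]
  have hgd : ∀ l ∈ ball lb s, deriv (fun l => 1 / deriv X₀ l) l =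
      -(2 * I * deriv κ l) / (2 * I * κ l) ^ 2 := by
    intro l hl
    rw [(hev l hl).deriv_eq]
    have h1 : HasDerivAt κ (deriv κ l) l :=
      ((hκ l hl).differentiableAt (isOpen_ball.mem_nhds hl)).hasDerivAt
    have h2 : 2 * I * κ l ≠ 0 := mul_ne_zero (mul_ne_zero two_ne_zero I_ne_zero) (hne l hl)
    have h3 := (hasDerivAt_const l (1:ℂ)).div (h1.const_mul (2 * I)) h2
    have h4 : HasDerivAt (fun l => 1 / (2 * I * κ l))
        (-(2 * I * deriv κ l) / (2 * I * κ l) ^ 2) l := by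
      refine h3.congr_deriv ?_
      ring
    exact h4.deriv
  have hA0 : A 0 = 1 := by
    rw [hA]
    dsimp only
    rw [hE0, (hev lb (mem_ball_self hs)).deriv_eq, ← hℓ, ← Complex.exp_add, neg_add_cancel,
      Complex.exp_zero]
  have hAc : ContinuousAt A 0 :=
    ((hC.A_an 0 (mem_ball_self hρ1)).differentiableAt
      (isOpen_ball.mem_nhds (mem_ball_self hρ1))).continuousAt
  obtain ⟨d, hd0, hdA⟩ := Metric.continuousAt_iff.1 hAc (1 / 128) (by norm_num)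
  obtain ⟨ρ, hρ⟩ : ∃ ρ : ℝ, ρ = min d (‖κ lb‖ * R₁ / 8) := ⟨_, rfl⟩
  have hρ0 : 0 < ρ := by rw [hρ]; exact lt_min hd0 hρ1
  have hρd : ρ ≤ d := by rw [hρ]; exact min_le_left _ _
  have hρr : ρ ≤ ‖κ lb‖ * R₁ / 8 := by rw [hρ]; exact min_le_right _ _
  have hbb : ball (0:ℂ) ρ ⊆ ball (0:ℂ) (‖κ lb‖ * R₁ / 8) := ball_subset_ball hρr
  have hhalf : ball lb (R₁ / 2) ⊆ ball lb s := ball_subset_ball (by linarith)
  -- the energy
  obtain ⟨Φ1, hΦ1⟩ := (convex_ball (0:ℂ) ρ).exists_forall_hasDerivWithinAt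
    (f := fun x => -(cexp ℓ * A x)) (((hC.A_an.mono hbb).const_mul _).neg)
  have hΦ1' : ∀ x ∈ ball (0:ℂ) ρ, HasDerivAt Φ1 (-(cexp ℓ * A x)) x := fun x hx =>
    (hΦ1 x hx).hasDerivAt (isOpen_ball.mem_nhds hx)
  have hder : ∀ x ∈ ball (0:ℂ) ρ,
      HasDerivAt (fun x => cexp (-Φ1 x) * (2 * I * κ (E x))) 0 x := by
    intro x hx
    have hEx := hhalf (hC.E_mem x (hbb hx))
    have h1 : HasDerivAt κ (deriv κ (E x)) (E x) :=
      ((hκ _ hEx).differentiableAt (isOpen_ball.mem_nhds hEx)).hasDerivAt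
    have h2 := (h1.comp x (hE' x (hbb hx))).const_mul (2 * I)
    have h3 := (hΦ1' x hx).neg.cexp
    have h4 := h3.mul h2
    have h5 : κ (E x) ≠ 0 := hne _ hEx
    refine h4.congr_deriv ?_
    simp only [Function.comp_apply, Pi.neg_apply]
    have h6 : cexp ℓ * A x = -(2 * I * deriv κ (E x)) / (2 * I * κ (E x)) ^ 2 := by
      rw [hA]
      dsimp only
      rw [← mul_assoc, ← Complex.exp_add, add_neg_cancel, Complex.exp_zero, one_mul,
        hgd _ hEx]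
    rw [h6]
    have hI : (I:ℂ) ≠ 0 := I_ne_zero
    field_simp
    ring
  have h00 : (0:ℂ) ∈ ball (0:ℂ) ρ := mem_ball_self hρ0
  obtain ⟨c, hc⟩ : ∃ c : ℂ, c = cexp (-Φ1 0) * (2 * I * κ (E 0)) := ⟨_, rfl⟩
  have hc0 : c ≠ 0 := by
    rw [hc, hE0]
    exact mul_ne_zero (Complex.exp_ne_zero _) ha
  have hconst : ∀ x ∈ ball (0:ℂ) ρ, cexp (-Φ1 x) * (2 * I * κ (E x)) = c := by
    intro x hx
    rw [hc]
    exact isOpen_ball.is_const_of_deriv_eq_zero (convex_ball (0:ℂ) ρ).isPreconnected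
      (fun τ hτ => (hder τ hτ).differentiableAt.differentiableWithinAt)
      (fun τ hτ => (hder τ hτ).deriv) hx h00
  refine ⟨ρ, X₀, E, A, fun x => Φ1 x + Complex.log c - 1, hρ0, hρr, hX, ?_⟩
  refine ⟨⟨hR, hρ0, hC.X_an, hX0, hC.X_inj, hC.X_ne, hC.E_an.mono hbb,
    fun x hx => hC.E_mem x (hbb hx), fun x hx => hC.X_E x (hbb hx),
    fun x hx => hC.A_eq x (hbb hx), hC.A_an.mono hbb⟩, fun l hl => hne l (hsub hl),
    fun l hl => hX l (hsub hl), ⟨hρ0, hA0, fun x hx => ?_, hC.A_an.mono hbb, fun x hx => ?_⟩,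
    fun x hx => ?_⟩
  · have h1 : dist x 0 < d := by
      rw [mem_ball] at hx
      linarith
    have h2 := hdA h1
    rw [hA0, dist_eq_norm] at h2
    exact h2.le
  · exact ((hΦ1' x hx).add_const _).sub_const _
  · have h1 := hconst x hx
    have h2 : κ (E x) ≠ 0 := hne _ (hhalf (hC.E_mem x (hbb hx)))
    have h3 : cexp (-(Φ1 x + Complex.log c - 1)) = cexp 1 * cexp (-Φ1 x) / c := by
      have h4 : -(Φ1 x + Complex.log c - 1) = 1 + -Φ1 x - Complex.log c := by ring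
      rw [h4, Complex.exp_sub, Complex.exp_log hc0, Complex.exp_add]
    rw [h3, ← h1]
    have hI : (I:ℂ) ≠ 0 := I_ne_zero
    have h5 : cexp (-Φ1 x) ≠ 0 := Complex.exp_ne_zero _
    field_simp

end Pool.Agent.MP_ae5b4e_an_K1
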