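import Pool.Agent.Lib.MP_ae5b4e_an_K1.Frm
import Pool.Agent.Lib.MP_ae5b4e_an_K1.Nod

/-!
# MP_ae5b4e_an, block K1: the WKB frame of a sequence of systems, without normalisation of `1 / X'`
-/

set_option autoImplicit false

noncomputable section

namespace Pool.Agent.MP_ae5b4e_an_K1

open Complex Set Filter Topology Metric
open Pool.Agent.MP_ae5b4e_an_NB2 (Sys)

/-- NODE RELATION in a coordinate `X` with `exp (X / h)` = quotient of two solutions. -/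
theorem node_gen {Y : Sys} {S B : Set ℂ} {h : ℝ} {a b a' b' : ℂ} {X : ℂ → ℂ} (hY : Y.On S)
    (hB : IsOpen B) (hBS : B ⊆ S) (hh0 : h ≠ 0) (hwr' : b * a' - a * b' ≠ 0)
    (hXd : DifferentiableOn ℂ X B)
    (hne : ∀ l ∈ B, a * Y.y1 l + b * Y.y2 l ≠ 0 ∧ a' * Y.y1 l + b' * Y.y2 l ≠ 0)
    (he : ∀ l ∈ B, cexp (X l / h) = (a * Y.y1 l + b * Y.y2 l) / (a' * Y.y1 l + b' * Y.y2 l))
    {l u w : ℂ} (hl : l ∈ B) (hu : u ∈ B) (hw : w ∈ B)
    (hlu : cexp ((X u - X l) / h) ≠ 1) (hlw : cexp ((X l - X w) / h) ≠ 1) :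
    Y.node l u w ↔ 1 / (cexp ((X u - X l) / h) - 1) =
      1 / (cexp ((X l - X w) / h) - 1) + h * deriv (fun s => 1 / deriv X s) l := by
  obtain ⟨c, hc⟩ : ∃ c : ℂ, c = b * a' - a * b' := ⟨_, rfl⟩
  have hc0 : c ≠ 0 := by rw [hc]; exact hwr'
  have hh : (h : ℂ) ≠ 0 := by exact_mod_cast hh0
  have hwr := hY.wr l (hBS hl)
  have hexp : ∀ z ∈ B, HasDerivAt X (h * c / ((a * Y.y1 z + b * Y.y2 z) *
      (a' * Y.y1 z + b' * Y.y2 z))) z := by
    intro z hz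
    obtain ⟨n1, n2⟩ := hne z hz
    have h1 : HasDerivAt X (deriv X z) z :=
      ((hXd z hz).differentiableAt (hB.mem_nhds hz)).hasDerivAt
    have h2 := (h1.div_const (h:ℂ)).cexp
    have h3 := (hasDerivAt_comb hY a b (hBS hz)).div (hasDerivAt_comb hY a' b' (hBS hz)) n2
    have h4 : (fun z => cexp (X z / h)) =ᶠ[𝓝 z]
        fun z => (a * Y.y1 z + b * Y.y2 z) / (a' * Y.y1 z + b' * Y.y2 z) := by
      filter_upwards [hB.mem_nhds hz] with y hy
      exact he y hy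
    have h5 := h2.unique (h3.congr_of_eventuallyEq h4)
    rw [he z hz] at h5
    have h6 := hY.wr z (hBS hz)
    refine h1.congr_deriv ?_
    have h7 : (a * Y.y1' z + b * Y.y2' z) * (a' * Y.y1 z + b' * Y.y2 z) -
        (a * Y.y1 z + b * Y.y2 z) * (a' * Y.y1' z + b' * Y.y2' z) = c := by
      rw [hc]
      linear_combination (b * a' - a * b') * h6
    rw [h7] at h5
    have h8 : ∀ p m d : ℂ, p ≠ 0 → m ≠ 0 → p / m * (d / h) = c / m ^ 2 → d = h * c / (p * m) := by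
      intro p m d hp hm hd
      field_simp at hd ⊢
      linear_combination hd
    exact h8 _ _ _ n1 n2 h5
  obtain ⟨n1, n2⟩ := hne l hl
  obtain ⟨n3, n4⟩ := hne u hu
  obtain ⟨n5, n6⟩ := hne w hw
  have hA : h * deriv (fun s => 1 / deriv X s) l = ((a * Y.y1' l + b * Y.y2' l) *
      (a' * Y.y1 l + b' * Y.y2 l) + (a * Y.y1 l + b * Y.y2 l) *
      (a' * Y.y1' l + b' * Y.y2' l)) / c := by
    have h1 : (fun z => 1 / deriv X z) =ᶠ[𝓝 l] fun z => ((a * Y.y1 z + b * Y.y2 z) *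
        (a' * Y.y1 z + b' * Y.y2 z)) / (h * c) := by
      filter_upwards [hB.mem_nhds hl] with y hy
      rw [(hexp y hy).deriv, one_div_div]
    have h2 := ((hasDerivAt_comb hY a b (hBS hl)).mul (hasDerivAt_comb hY a' b'
      (hBS hl))).div_const (h * c)
    have h3 : deriv (fun z => ((a * Y.y1 z + b * Y.y2 z) * (a' * Y.y1 z + b' * Y.y2 z)) /
        (h * c)) l = ((a * Y.y1' l + b * Y.y2' l) * (a' * Y.y1 l + b' * Y.y2 l) +
          (a * Y.y1 l + b * Y.y2 l) * (a' * Y.y1' l + b' * Y.y2' l)) / (h * c) := h2.deriv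
    rw [h1.deriv_eq, h3]
    field_simp
  have hD1 : cexp ((X u - X l) / h) = (a * Y.y1 u + b * Y.y2 u) / (a' * Y.y1 u + b' * Y.y2 u) /
      ((a * Y.y1 l + b * Y.y2 l) / (a' * Y.y1 l + b' * Y.y2 l)) := by
    rw [sub_div, Complex.exp_sub, he u hu, he l hl]
  have hD2 : cexp ((X l - X w) / h) = (a * Y.y1 l + b * Y.y2 l) / (a' * Y.y1 l + b' * Y.y2 l) /
      ((a * Y.y1 w + b * Y.y2 w) / (a' * Y.y1 w + b' * Y.y2 w)) := by
    rw [sub_div, Complex.exp_sub, he w hw, he l hl]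
  rw [hD1] at hlu
  rw [hD2] at hlw
  rw [hD1, hD2, hA]
  exact nod_alg (P' := a * Y.y1' l + b * Y.y2' l) (M' := a' * Y.y1' l + b' * Y.y2' l)
    (c := c) (su := Y.s u l) (cu := Y.c u l) (sw := Y.s w l) (cw := Y.c w l)
    hc0 n1 n2 n4 n5 (by rw [hc]; unfold Sys.s; ring) (by rw [hc]; unfold Sys.c; ring)
    (by rw [hc]; unfold Sys.s; ring) (by rw [hc]; unfold Sys.c; ring)
    (by rw [hc]; linear_combination (b * a' - a * b') * hwr) hlu hlw

/-- a holomorphic square root near a point where the function is not zero -/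
theorem exists_root {f : ℂ → ℂ} {lb w0 : ℂ} {R : ℝ} (hR : 0 < R)
    (hf : DifferentiableOn ℂ f (ball lb R)) (h0 : w0 ≠ 0) (hw : w0 ^ 2 = f lb) :
    ∃ (r : ℝ) (w : ℂ → ℂ), 0 < r ∧ r ≤ R ∧ DifferentiableOn ℂ w (ball lb r) ∧ w lb = w0 ∧
      ∀ l ∈ ball lb r, w l ^ 2 = f l ∧ w l ≠ 0 := by
  have hlb : lb ∈ ball lb R := mem_ball_self hR
  have hfc : ContinuousAt f lb :=
    ((hf lb hlb).differentiableAt (isOpen_ball.mem_nhds hlb)).continuousAt
  have hf0 : f lb ≠ 0 := by rw [← hw]; exact pow_ne_zero 2 h0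
  have h1 : ContinuousAt (fun l => f l / f lb) lb := hfc.div_const _
  have h2 : f lb / f lb ∈ slitPlane := by
    rw [div_self hf0]
    exact one_mem_slitPlane
  have h3 : ∀ᶠ l in 𝓝 lb, f l / f lb ∈ slitPlane :=
    h1.eventually (isOpen_slitPlane.mem_nhds h2)
  obtain ⟨d, hd, hd2⟩ := Metric.eventually_nhds_iff_ball.1 h3
  refine ⟨min d R, fun l => w0 * cexp (1 / 2 * Complex.log (f l / f lb)), lt_min hd hR,
    min_le_right _ _, ?_, ?_, fun l hl => ⟨?_, mul_ne_zero h0 (Complex.exp_ne_zero _)⟩⟩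
  · intro l hl
    have m1 : l ∈ ball lb d := ball_subset_ball (min_le_left _ _) hl
    have m2 : l ∈ ball lb R := ball_subset_ball (min_le_right _ _) hl
    have h4 := ((hf l m2).differentiableAt (isOpen_ball.mem_nhds m2)).div_const (f lb)
    exact ((((h4.clog (hd2 l m1)).const_mul (1 / 2)).cexp).const_mul w0).differentiableWithinAt
  · dsimp only
    rw [div_self hf0, Complex.log_one, mul_zero, Complex.exp_zero, mul_one]
  · have m1 : l ∈ ball lb d := ball_subset_ball (min_le_left _ _) hl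
    have h4 : f l / f lb ≠ 0 := slitPlane_ne_zero (hd2 l m1)
    dsimp only
    rw [mul_pow, ← Complex.exp_nat_mul, hw]
    have h5 : ((2:ℕ):ℂ) * (1 / 2 * Complex.log (f l / f lb)) = Complex.log (f l / f lb) := by
      push_cast
      ring
    rw [h5, Complex.exp_log h4]
    field_simp

/-- THE WKB FRAME for a sequence of systems. -/
theorem wkb_seq {U : Filter ℕ} {Z : ℕ → Sys} {ep : ℕ → ℝ} {q : ℂ → ℂ} {lb w0 : ℂ} {R0 : ℝ}
    (hR : 0 < R0) (hZ : ∀ᶠ n in U, (Z n).On (ball lb R0)) (hep : ∀ n, 0 < ep n)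
    (hlim : Tendsto ep U (𝓝 0)) (hq : DifferentiableOn ℂ q (ball lb R0))
    (hQ : ∀ d > 0, ∀ᶠ n in U, ∀ l ∈ ball lb R0, ‖(ep n : ℂ) ^ 2 * (Z n).Q l - q l‖ ≤ d)
    (h0 : q lb ≠ 0) (hw : w0 ^ 2 = -4 * q lb) :
    ∃ (R : ℝ) (w : ℂ → ℂ) (Xn : ℕ → ℂ → ℂ), 0 < R ∧ R ≤ R0 ∧ w lb = w0 ∧
      DifferentiableOn ℂ w (ball lb R) ∧ (∀ l ∈ ball lb R, w l ^ 2 = -4 * q l) ∧
      (∀ l ∈ ball lb R, w l ≠ 0) ∧
      (∀ᶠ n in U, DifferentiableOn ℂ (Xn n) (ball lb R)) ∧ (∀ᶠ n in U, Xn n lb = 0) ∧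
      (∀ d > 0, ∀ᶠ n in U, ∀ l ∈ ball lb R, ‖deriv (Xn n) l - w l‖ ≤ d) ∧
      ∀ᶠ n in U, ∀ l ∈ ball lb R, ∀ lp ∈ ball lb R, ∀ lm ∈ ball lb R,
        cexp ((Xn n lp - Xn n l) / ep n) ≠ 1 → cexp ((Xn n l - Xn n lm) / ep n) ≠ 1 →
        ((Z n).node l lp lm ↔ 1 / (cexp ((Xn n lp - Xn n l) / ep n) - 1) =
          1 / (cexp ((Xn n l - Xn n lm) / ep n) - 1) +
            ep n * deriv (fun s => 1 / deriv (Xn n) s) l) := by
  classical
  have hw0 : w0 ≠ 0 := by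
    rintro rfl
    apply h0
    have h1 : (0:ℂ) = -4 * q lb := by rw [← hw]; ring
    have h2 : (-4:ℂ) ≠ 0 := by norm_num
    exact (mul_eq_zero.1 h1.symm).resolve_left h2
  obtain ⟨r, w, hr, hrR, hwd, hwlb, hws⟩ := exists_root (f := fun l => -4 * q l) hR
    (hq.const_mul (-4)) hw0 hw
  obtain ⟨κ, hκ⟩ : ∃ κ : ℂ → ℂ, κ = fun l => w l / (2 * I) := ⟨_, rfl⟩
  have h2I : (2 * I : ℂ) ≠ 0 := mul_ne_zero two_ne_zero I_ne_zero
  have hκw : ∀ l, 2 * I * κ l = w l := by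
    intro l
    rw [hκ]
    field_simp
  have hκq : ∀ l ∈ ball lb r, κ l ^ 2 = q l := by
    intro l hl
    have h1 := (hws l hl).1
    rw [hκ]
    dsimp only
    rw [div_pow, h1, mul_pow, Complex.I_sq]
    ring
  have hκ0 : κ lb ≠ 0 := by
    rw [hκ]
    dsimp only
    rw [hwlb]
    exact div_ne_zero hw0 h2I
  have hκd : DifferentiableOn ℂ κ (ball lb r) := by
    rw [hκ]
    exact hwd.div_const _
  obtain ⟨s, hs, hsr, hn⟩ := near_kappa hr hκd hκ0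
  have hk0 : 0 < ‖κ lb‖ := norm_pos_iff.2 hκ0
  have h5r : ball lb (5 * s) ⊆ ball lb r := ball_subset_ball hsr.le
  have h5R : ball lb (5 * s) ⊆ ball lb R0 := h5r.trans (ball_subset_ball hrR)
  -- the frame for one index
  let P : ℕ → (ℂ → ℂ) → Prop := fun n X =>
    ∃ (a b a' b' : ℂ) (X' : ℂ → ℂ), b * a' - a * b' ≠ 0 ∧ X lb = 0 ∧
      (∀ l ∈ ball lb s, (a * (Z n).y1 l + b * (Z n).y2 l ≠ 0 ∧
          a' * (Z n).y1 l + b' * (Z n).y2 l ≠ 0) ∧
        HasDerivAt X (X' l) l ∧ cexp (X l / ep n) =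
          (a * (Z n).y1 l + b * (Z n).y2 l) / (a' * (Z n).y1 l + b' * (Z n).y2 l)) ∧
      ∀ d : ℝ, (∀ l ∈ ball lb (5 * s), ‖(Z n).Q l - ((1 / ep n : ℝ) : ℂ) ^ 2 * κ l ^ 2‖ ≤
        d * (1 / ep n) ^ 2) →
        ∀ l ∈ ball lb (s / 2), ‖X' l - 2 * I * κ l‖ ≤ 2 * (d / ‖κ lb‖ + 4 / (s * (1 / ep n)))
  have hQn : ∀ d : ℝ, ∀ n, (∀ l ∈ ball lb R0, ‖(ep n : ℂ) ^ 2 * (Z n).Q l - q l‖ ≤ d) →
      ∀ l ∈ ball lb (5 * s),
        ‖(Z n).Q l - ((1 / ep n : ℝ) : ℂ) ^ 2 * κ l ^ 2‖ ≤ d * (1 / ep n) ^ 2 := by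
    intro d n h2 l hl
    have hen := hep n
    have h3 := h2 l (h5R hl)
    rw [← hκq l (h5r hl)] at h3
    have he : (ep n : ℂ) ≠ 0 := by exact_mod_cast hen.ne'
    have h4 : (Z n).Q l - ((1 / ep n : ℝ) : ℂ) ^ 2 * κ l ^ 2 =
        ((1 / ep n : ℝ) : ℂ) ^ 2 * ((ep n : ℂ) ^ 2 * (Z n).Q l - κ l ^ 2) := by
      push_cast
      field_simp
    rw [h4, norm_mul, norm_pow, Complex.norm_real, Real.norm_of_nonneg (by positivity), mul_comm]
    exact mul_le_mul_of_nonneg_right h3 (by positivity)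
  have hP : ∀ᶠ n in U, ∃ X, P n X := by
    filter_upwards [hZ, hQ (‖κ lb‖ ^ 2 / 100) (by positivity)] with n h1 h2
    have hen := hep n
    have hOn : (Z n).On (ball lb (5 * s)) := ⟨fun z hz => h1.d1 z (h5R hz),
      fun z hz => h1.d1' z (h5R hz), fun z hz => h1.d2 z (h5R hz), fun z hz => h1.d2' z (h5R hz),
      fun z hz => h1.wr z (h5R hz)⟩
    obtain ⟨a, b, a', b', X, X', g1, g2, g3, g4⟩ := frm1 hs (by positivity : 0 < 1 / ep n) hκ0 hn
      hOn le_rfl (hQn _ n h2)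
    refine ⟨X, a, b, a', b', X', g1, g2, fun l hl => ⟨(g3 l hl).1, (g3 l hl).2.1, ?_⟩, g4⟩
    have h3 := (g3 l hl).2.2.2
    rw [one_div_one_div] at h3
    exact h3
  obtain ⟨Xn, hXn⟩ : ∃ Xn : ℕ → ℂ → ℂ, Xn = fun n => if h : ∃ X, P n X then h.choose else 0 :=
    ⟨_, rfl⟩
  have hX : ∀ᶠ n in U, P n (Xn n) := by
    filter_upwards [hP] with n hn
    rw [hXn]
    dsimp only
    rw [dif_pos hn]
    exact hn.choose_spec
  have hs2 : ball lb (s / 2) ⊆ ball lb s := ball_subset_ball (by linarith)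
  have hs2r : ball lb (s / 2) ⊆ ball lb r := ball_subset_ball (by linarith)
  have hs2R : ball lb (s / 2) ⊆ ball lb R0 := hs2r.trans (ball_subset_ball hrR)
  refine ⟨s / 2, w, Xn, by positivity, by linarith, hwlb, hwd.mono hs2r,
    fun l hl => (hws l (hs2r hl)).1, fun l hl => (hws l (hs2r hl)).2, ?_, ?_, ?_, ?_⟩
  · filter_upwards [hX] with n hn
    obtain ⟨a, b, a', b', X', -, -, g3, -⟩ := hn
    exact fun l hl => ((g3 l (hs2 hl)).2.1).differentiableAt.differentiableWithinAt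
  · filter_upwards [hX] with n hn
    obtain ⟨a, b, a', b', X', -, g2, -, -⟩ := hn
    exact g2
  · intro d hd
    have e1 : ∀ᶠ n in U, 4 / (s * (1 / ep n)) ≤ d / 4 := by
      have h1 : Tendsto (fun n => 4 / s * ep n) U (𝓝 (4 / s * 0)) := hlim.const_mul _
      rw [mul_zero] at h1
      filter_upwards [h1.eventually (ge_mem_nhds (by positivity : (0:ℝ) < d / 4))] with n h2
      have hen := hep n
      have h3 : 4 / (s * (1 / ep n)) = 4 / s * ep n := by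
        field_simp
      rw [h3]
      exact h2
    filter_upwards [hX, hQ (d * ‖κ lb‖ / 4) (by positivity), e1] with n hn h2 h3 l hl
    obtain ⟨a, b, a', b', X', -, -, g3, g4⟩ := hn
    have h4 := g4 _ (hQn _ n h2) l hl
    rw [hκw] at h4
    rw [((g3 l (hs2 hl)).2.1).deriv]
    refine h4.trans ?_
    have h5 : d * ‖κ lb‖ / 4 / ‖κ lb‖ = d / 4 := by
      field_simp
    rw [h5]
    linarith
  · filter_upwards [hX, hZ] with n hn h1 l hl lp hlp lm hlm h5 h6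
    obtain ⟨a, b, a', b', X', g1, -, g3, -⟩ := hn
    exact node_gen h1 isOpen_ball hs2R (hep n).ne' g1
      (fun l hl => ((g3 l (hs2 hl)).2.1).differentiableAt.differentiableWithinAt)
      (fun l hl => (g3 l (hs2 hl)).1) (fun l hl => (g3 l (hs2 hl)).2.2) hl hlp hlm h5 h6

end Pool.Agent.MP_ae5b4e_an_K1
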