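import Pool.Agent.Lib.MP_ae5b4e_an_K1.Frm

/-!
# MP_ae5b4e_an, block K1: the WKB frame
-/

set_option autoImplicit false

noncomputable section

namespace Pool.Agent.MP_ae5b4e_an_K1

open Complex Set Filter Topology Metric
open Pool.Agent.MP_ae5b4e_an_NB2 (Sys)

/-- Cauchy's estimate on a smaller disc -/
theorem cau1 {f : ℂ → ℂ} {lb : ℂ} {t r B : ℝ} (hr : 0 < r) (hf : DifferentiableOn ℂ f (ball lb t))
    (hB : ∀ z ∈ ball lb t, ‖f z‖ ≤ B) {l : ℂ} (hl : l ∈ ball lb (t - r)) :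
    ‖deriv f l‖ ≤ B / r := by
  have hcb : ∀ z ∈ closedBall l r, z ∈ ball lb t := by
    intro z hz
    rw [mem_closedBall] at hz
    rw [mem_ball] at hl ⊢
    linarith [dist_triangle z l lb]
  exact Complex.norm_deriv_le_of_forall_mem_sphere_norm_le hr (hf.diffContOnCl_ball hcb)
    fun z hz => hB z (hcb z (sphere_subset_closedBall hz))

/-- THE WKB FRAME, for one system. -/
theorem wkb {κ : ℂ → ℂ} {lb ℓ : ℂ} {R : ℝ} (hR : 0 < R) (hκ : DifferentiableOn ℂ κ (ball lb R))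
    (h0 : κ lb ≠ 0) (hℓ : cexp ℓ = deriv (fun l => 1 / (2 * I * κ l)) lb) :
    ∃ (R₁ ρ : ℝ) (X₀ E₀ A₀ Φ : ℂ → ℂ), R₁ < R ∧ Lim κ lb ℓ R₁ ρ X₀ E₀ A₀ Φ ∧
      ∀ ε : ℝ, 0 < ε → ∃ δ N₀ : ℝ, 0 < δ ∧ 0 < N₀ ∧ ∀ (Y : Sys) (N : ℝ), N₀ ≤ N →
        Y.On (ball lb R) → (∀ l ∈ ball lb R, ‖Y.Q l - N ^ 2 * κ l ^ 2‖ ≤ δ * N ^ 2) →
        ∃ (a b a' b' : ℂ) (X E A : ℂ → ℂ), Fr Y lb ℓ R₁ ρ (1 / N) a b a' b' X E A ∧
          Near lb R₁ ρ ε X E A X₀ E₀ A₀ := by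
  obtain ⟨s, hs, hsR, hn⟩ := near_kappa hR hκ h0
  have hk0 : 0 < ‖κ lb‖ := norm_pos_iff.2 h0
  have hs5 : ball lb s ⊆ ball lb (5 * s) := ball_subset_ball (by linarith)
  have h5R : ball lb (5 * s) ⊆ ball lb R := ball_subset_ball hsR.le
  have hκs : DifferentiableOn ℂ κ (ball lb s) := hκ.mono (hs5.trans h5R)
  have hns : ∀ l ∈ ball lb s, ‖κ l - κ lb‖ ≤ ‖κ lb‖ / 200 := fun l hl => hn l (hs5 hl)
  obtain ⟨ρ, X₀, E₀, A₀, Φ, hρ, hρ8, hX₀, hL⟩ :=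
    exists_lim hs hκs h0 hns hℓ (R₁ := s / 4) (by positivity) (by linarith)
  refine ⟨s / 4, ρ, X₀, E₀, A₀, Φ, by linarith, hL, fun ε hε => ?_⟩
  -- bounds for `2 i κ`
  have hna : ‖2 * I * κ lb‖ = 2 * ‖κ lb‖ := by
    rw [norm_mul, norm_mul, Complex.norm_I, mul_one, Complex.norm_ofNat]
  have ha : 2 * I * κ lb ≠ 0 := norm_pos_iff.1 (by rw [hna]; positivity)
  have h2d : ∀ l ∈ ball lb s, ‖2 * I * κ l - 2 * I * κ lb‖ ≤ ‖κ lb‖ / 100 := by
    intro l hl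
    rw [← mul_sub, norm_mul, norm_mul, Complex.norm_I, mul_one, Complex.norm_ofNat]
    have := hns l hl
    linarith
  have h2k : ∀ l ∈ ball lb s, ‖κ lb‖ ≤ ‖2 * I * κ l‖ := by
    intro l hl
    have h1 := norm_sub_norm_le (2 * I * κ lb) (2 * I * κ l)
    rw [norm_sub_rev, hna] at h1
    have h2 := h2d l hl
    linarith
  have h2ne : ∀ l ∈ ball lb s, 2 * I * κ l ≠ 0 := fun l hl =>
    norm_pos_iff.1 (hk0.trans_le (h2k l hl))
  -- the function `g₀`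
  obtain ⟨g₀, hg₀⟩ : ∃ g : ℂ → ℂ, g = fun l => 1 / (2 * I * κ l) := ⟨_, rfl⟩
  have hg₀d : DifferentiableOn ℂ g₀ (ball lb s) := by
    rw [hg₀]
    exact (differentiableOn_const (c := (1:ℂ))).div (hκs.const_mul (2 * I)) h2ne
  have hg₀b : ∀ l ∈ ball lb s, ‖g₀ l‖ ≤ 1 / ‖κ lb‖ := by
    intro l hl
    rw [hg₀]
    dsimp only
    rw [norm_div, norm_one]
    exact one_div_le_one_div_of_le hk0 (h2k l hl)
  have hg₁ : ∀ l ∈ ball lb (3 / 4 * s), ‖deriv g₀ l‖ ≤ 1 / ‖κ lb‖ / (s / 4) := fun l hl =>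
    cau1 (by positivity) hg₀d hg₀b (ball_subset_ball (by linarith) hl)
  have hg₁d : DifferentiableOn ℂ (deriv g₀) (ball lb s) := hg₀d.deriv isOpen_ball
  have hg₂ : ∀ l ∈ ball lb (s / 2), ‖deriv (deriv g₀) l‖ ≤ 1 / ‖κ lb‖ / (s / 4) / (s / 4) :=
    fun l hl => cau1 (by positivity) (hg₁d.mono (ball_subset_ball (by linarith))) hg₁
      (ball_subset_ball (by linarith) hl)
  obtain ⟨K, hK⟩ : ∃ K : ℝ, K = 1 / ‖κ lb‖ / (s / 4) / (s / 4) := ⟨_, rfl⟩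
  have hK0 : 0 < K := by rw [hK]; positivity
  rw [← hK] at hg₂
  have hlip : ∀ u ∈ ball lb (s / 2), ∀ v ∈ ball lb (s / 2),
      ‖deriv g₀ u - deriv g₀ v‖ ≤ K * ‖u - v‖ := by
    intro u hu v hv
    have h1 : ball lb (s / 2) ⊆ ball lb s := ball_subset_ball (by linarith)
    exact (convex_ball lb (s / 2)).norm_image_sub_le_of_norm_deriv_le
      (fun z hz => (hg₁d z (h1 hz)).differentiableAt (isOpen_ball.mem_nhds (h1 hz))) hg₂ hv hu
  -- constants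
  obtain ⟨e, he⟩ : ∃ e : ℝ, e = ‖cexp (-ℓ)‖ := ⟨_, rfl⟩
  have he0 : 0 < e := by rw [he]; exact norm_pos_iff.2 (Complex.exp_ne_zero _)
  obtain ⟨C, hC⟩ : ∃ C : ℝ, C = 1 + s + s / ‖κ lb‖ +
    e * (1 / ‖κ lb‖ ^ 2 / (s / 4) + K * (s / ‖κ lb‖)) := ⟨_, rfl⟩
  have hc1 : 0 < s / ‖κ lb‖ := by positivity
  have hc2 : 0 < 1 / ‖κ lb‖ ^ 2 / (s / 4) := by positivity
  have hc3 : 0 < K * (s / ‖κ lb‖) := by positivity
  have hc4 : 0 < e * (1 / ‖κ lb‖ ^ 2 / (s / 4) + K * (s / ‖κ lb‖)) := by positivity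
  have hC0 : 0 < C := by rw [hC]; positivity
  obtain ⟨ε₁, hε₁⟩ : ∃ ε₁ : ℝ, ε₁ = ε / C := ⟨_, rfl⟩
  have hε₁0 : 0 < ε₁ := by rw [hε₁]; positivity
  have hCε : C * ε₁ = ε := by rw [hε₁]; field_simp
  obtain ⟨δ, hδ⟩ : ∃ δ : ℝ, δ = min (‖κ lb‖ ^ 2 / 100) (ε₁ * ‖κ lb‖ / 4) := ⟨_, rfl⟩
  have hδ0 : 0 < δ := by rw [hδ]; exact lt_min (by positivity) (by positivity)
  have hδ1 : δ ≤ ‖κ lb‖ ^ 2 / 100 := by rw [hδ]; exact min_le_left _ _
  have hδ2 : δ ≤ ε₁ * ‖κ lb‖ / 4 := by rw [hδ]; exact min_le_right _ _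
  refine ⟨δ, 16 / (s * ε₁), hδ0, by positivity, fun Y N hN hY hQ => ?_⟩
  have hN0 : 0 < N := lt_of_lt_of_le (by positivity) hN
  have hY5 : Y.On (ball lb (5 * s)) := ⟨fun z hz => hY.d1 z (h5R hz), fun z hz => hY.d1' z (h5R hz),
    fun z hz => hY.d2 z (h5R hz), fun z hz => hY.d2' z (h5R hz), fun z hz => hY.wr z (h5R hz)⟩
  obtain ⟨a, b, a', b', X, X', hwr, hXlb, hX, hXc⟩ := frm1 hs hN0 h0 hn hY5 hδ1
    (fun l hl => hQ l (h5R hl))
  have hXd : ∀ l ∈ ball lb s, HasDerivAt X (X' l) l := fun l hl => (hX l hl).2.1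
  have hXn : ∀ l ∈ ball lb s, ‖X' l - 2 * I * κ lb‖ ≤ ‖2 * I * κ lb‖ / 10 := fun l hl =>
    (hX l hl).2.2.1
  have hXε : ∀ l ∈ ball lb (s / 2), ‖X' l - 2 * I * κ l‖ ≤ ε₁ := by
    intro l hl
    refine (hXc δ (fun l hl => hQ l (h5R hl)) l hl).trans ?_
    have h1 : δ / ‖κ lb‖ ≤ ε₁ / 4 := by
      rw [div_le_iff₀ hk0]
      linarith
    have h2 : 4 / (s * N) ≤ ε₁ / 4 := by
      rw [div_le_iff₀ (by positivity)]
      rw [div_le_iff₀ (by positivity)] at hN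
      linarith
    linarith
  obtain ⟨E, hCr, hE', hE0⟩ := crd1 (ℓ := ℓ) (R₁ := s / 4) (ρ := ρ) ha hXd
    (fun l hl => (hXn l hl).trans (by
      have := norm_nonneg (2 * I * κ lb)
      linarith)) hXlb (by positivity) (by linarith) hρ (by rw [hna]; linarith)
  obtain ⟨A, hA⟩ : ∃ A : ℂ → ℂ,
    A = fun x => cexp (-ℓ) * deriv (fun l => 1 / deriv X l) (E x) := ⟨_, rfl⟩
  rw [← hA] at hCr
  have hq4 : ball lb (s / 4) ⊆ ball lb (s / 2) := ball_subset_ball (by linarith)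
  have hq2 : ball lb (s / 2) ⊆ ball lb s := ball_subset_ball (by linarith)
  have hq8 : ball lb (s / 4 / 2) ⊆ ball lb (s / 4) := ball_subset_ball (by linarith)
  have hlb4 : lb ∈ ball lb (s / 4) := mem_ball_self (by positivity)
  -- `X - X₀`
  have hXX : ∀ l ∈ ball lb (s / 4), ‖X l - X₀ l‖ ≤ ε₁ * s := by
    intro l hl
    have h1 : ∀ z ∈ ball lb (s / 4), HasDerivWithinAt (fun z => X z - X₀ z)
        (X' z - 2 * I * κ z) (ball lb (s / 4)) z := fun z hz =>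
      ((hXd z (hq2 (hq4 hz))).sub (hX₀ z (hq2 (hq4 hz)))).hasDerivWithinAt
    have h2 := (convex_ball lb (s / 4)).norm_image_sub_le_of_norm_hasDerivWithin_le h1
      (fun z hz => hXε z (hq4 hz)) hlb4 hl
    rw [hXlb, hL.crd.X_lb, sub_zero, sub_zero] at h2
    refine h2.trans (mul_le_mul_of_nonneg_left ?_ hε₁0.le)
    rw [mem_ball, dist_eq_norm] at hl
    linarith
  -- `E - E₀`
  have hX₀d : DifferentiableOn ℂ X₀ (ball lb (s / 4)) := hL.crd.X_an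
  have hEE : ∀ x ∈ ball (0:ℂ) ρ, ‖E x - E₀ x‖ ≤ ε₁ * (s / ‖κ lb‖) := by
    intro x hx
    have m1 : E x ∈ ball lb (s / 4) := hq8 (hCr.E_mem x hx)
    have m2 : E₀ x ∈ ball lb (s / 4) := hq8 (hL.crd.E_mem x hx)
    have h1 := low1 (a := 2 * I * κ lb) hX₀d (fun l hl => by
      rw [(hX₀ l (hq2 (hq4 hl))).deriv]
      refine (h2d l (hq2 (hq4 hl))).trans ?_
      rw [hna]
      linarith) m1 m2
    rw [hL.crd.X_E x hx, hna] at h1
    have h2 : ‖X₀ (E x) - x‖ ≤ ε₁ * s := by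
      have h3 := hXX _ m1
      rw [hCr.X_E x hx, norm_sub_rev] at h3
      exact h3
    rw [← mul_div_assoc, le_div_iff₀ hk0]
    have h4 := norm_nonneg (E x - E₀ x)
    nlinarith
  -- `A - A₀`
  have hAA : ∀ x ∈ ball (0:ℂ) ρ, ‖A x - A₀ x‖ ≤
      e * (ε₁ / ‖κ lb‖ ^ 2 / (s / 4) + K * (ε₁ * (s / ‖κ lb‖))) := by
    intro x hx
    have m1 : E x ∈ ball lb (s / 4) := hq8 (hCr.E_mem x hx)
    have m2 : E₀ x ∈ ball lb (s / 4) := hq8 (hL.crd.E_mem x hx)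
    have hXne : ∀ l ∈ ball lb s, ‖κ lb‖ ≤ ‖X' l‖ := by
      intro l hl
      have h1 := norm_sub_norm_le (2 * I * κ lb) (X' l)
      rw [norm_sub_rev, hna] at h1
      have h2 := hXn l hl
      rw [hna] at h2
      linarith
    -- derivative of `1 / X'`
    obtain ⟨g, hg⟩ : ∃ g : ℂ → ℂ, g = fun l => 1 / X' l := ⟨_, rfl⟩
    have hX'd : DifferentiableOn ℂ X' (ball lb s) := by
      have h1 : DifferentiableOn ℂ X (ball lb s) := fun l hl =>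
        (hXd l hl).differentiableAt.differentiableWithinAt
      exact (h1.deriv isOpen_ball).congr fun l hl => (hXd l hl).deriv.symm
    have hgd : DifferentiableOn ℂ g (ball lb s) := by
      rw [hg]
      exact (differentiableOn_const (c := (1:ℂ))).div hX'd fun l hl =>
        norm_pos_iff.1 (hk0.trans_le (hXne l hl))
    have hgg : ∀ l ∈ ball lb (s / 2), ‖g l - g₀ l‖ ≤ ε₁ / ‖κ lb‖ ^ 2 := by
      intro l hl
      have n1 := hXne l (hq2 hl)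
      have n2 := h2k l (hq2 hl)
      have p1 : X' l ≠ 0 := norm_pos_iff.1 (hk0.trans_le n1)
      have p2 : 2 * I * κ l ≠ 0 := h2ne l (hq2 hl)
      have h1 : g l - g₀ l = -(X' l - 2 * I * κ l) / (X' l * (2 * I * κ l)) := by
        rw [hg, hg₀]
        dsimp only
        rw [div_sub_div _ _ p1 p2]
        congr 1
        ring
      rw [h1, norm_div, norm_neg, norm_mul]
      have h2 : ‖κ lb‖ ^ 2 ≤ ‖X' l‖ * ‖2 * I * κ l‖ := by
        rw [pow_two]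
        exact mul_le_mul n1 n2 hk0.le (norm_nonneg _)
      exact div_le_div₀ hε₁0.le (hXε l hl) (by positivity) h2
    have hgg' : ∀ l ∈ ball lb (s / 4), ‖deriv g l - deriv g₀ l‖ ≤ ε₁ / ‖κ lb‖ ^ 2 / (s / 4) := by
      intro l hl
      have hls := hq2 (hq4 hl)
      have d1 := (hgd l hls).differentiableAt (isOpen_ball.mem_nhds hls)
      have d2 := (hg₀d l hls).differentiableAt (isOpen_ball.mem_nhds hls)
      have h1 := cau1 (f := fun z => g z - g₀ z) (lb := lb) (t := s / 2) (r := s / 4)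
        (by positivity) ((hgd.mono hq2).sub (hg₀d.mono hq2)) hgg
        (ball_subset_ball (by linarith) hl)
      rw [deriv_fun_sub d1 d2] at h1
      exact h1
    have hev : ∀ l ∈ ball lb s, deriv (fun l => 1 / deriv X l) l = deriv g l := by
      intro l hl
      refine Filter.EventuallyEq.deriv_eq ?_
      filter_upwards [isOpen_ball.mem_nhds hl] with z hz
      rw [hg, (hXd z hz).deriv]
    have hev₀ : ∀ l ∈ ball lb s, deriv (fun l => 1 / deriv X₀ l) l = deriv g₀ l := by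
      intro l hl
      refine Filter.EventuallyEq.deriv_eq ?_
      filter_upwards [isOpen_ball.mem_nhds hl] with z hz
      rw [hg₀, (hX₀ z hz).deriv]
    have h1 : A x - A₀ x = cexp (-ℓ) * ((deriv g (E x) - deriv g₀ (E x)) +
        (deriv g₀ (E x) - deriv g₀ (E₀ x))) := by
      rw [hL.crd.A_eq x hx, hA]
      dsimp only
      rw [hev _ (hq2 (hq4 m1)), hev₀ _ (hq2 (hq4 m2))]
      ring
    rw [h1, norm_mul, ← he]
    refine mul_le_mul_of_nonneg_left ?_ he0.le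
    refine (norm_add_le _ _).trans (add_le_add (hgg' _ m1) ?_)
    refine (hlip _ (hq4 m1) _ (hq4 m2)).trans ?_
    exact mul_le_mul_of_nonneg_left (hEE x hx) hK0.le
  refine ⟨a, b, a', b', X, E, A, ⟨hCr, by positivity, hwr, fun l hl => ?_, fun l hl => ?_⟩,
    ⟨fun l hl => ?_, fun l hl => ?_, fun x hx => ?_, fun x hx => ?_⟩⟩
  · exact (hX l (hq2 (hq4 hl))).1
  · exact (hX l (hq2 (hq4 hl))).2.2.2
  · refine (hXX l hl).trans ?_
    rw [← hCε, hC]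
    nlinarith
  · rw [(hXd l (hq2 (hq4 hl))).deriv, (hX₀ l (hq2 (hq4 hl))).deriv]
    refine (hXε l (hq4 hl)).trans ?_
    rw [← hCε, hC]
    nlinarith
  · refine (hEE x hx).trans ?_
    rw [← hCε, hC]
    nlinarith
  · refine (hAA x hx).trans ?_
    have h1 : e * (ε₁ / ‖κ lb‖ ^ 2 / (s / 4) + K * (ε₁ * (s / ‖κ lb‖))) =
        ε₁ * (e * (1 / ‖κ lb‖ ^ 2 / (s / 4) + K * (s / ‖κ lb‖))) := by ring
    rw [h1, ← hCε, hC]
    nlinarith

end Pool.Agent.MP_ae5b4e_an_K1
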